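import Pool.Agent.Lib.MP_506ba8_co.H52.Fan

/-!
# The Lusternik–Schnirelmann–Fan theorem with thresholds

A family of odd continuous functions on the sphere (sup norm) of `Fin R → ℝ` one of which always
reaches its threshold has a point where `R` of the excesses `|F i x| - th i` are equal to the
maximal one.
-/

namespace Pool.Agent.Lib.MP_506ba8_co.H52

open Finset Function

/-- The map of the cube onto the upper half of the sphere. -/
noncomputable def Ph (d : ℕ) (w : Fin d → ℝ) : Fin (d+1) → ℝ :=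
  (max (1 - ‖w‖) ‖w‖)⁻¹ • (Fin.cons (1 - ‖w‖) w : Fin (d+1) → ℝ)

lemma norm_cons {d : ℕ} (a : ℝ) (w : Fin d → ℝ) :
    ‖(Fin.cons a w : Fin (d+1) → ℝ)‖ = max |a| ‖w‖ := by
  apply le_antisymm
  · rw [pi_norm_le_iff_of_nonneg (le_max_of_le_right (norm_nonneg _))]
    intro i
    refine Fin.cases ?_ (fun j => ?_) i
    · simp
    · simpa using Or.inr (norm_le_pi_norm w j)
  · refine max_le ?_ ?_
    · simpa using norm_le_pi_norm (Fin.cons a w : Fin (d+1) → ℝ) 0
    · rw [pi_norm_le_iff_of_nonneg (norm_nonneg _)]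
      intro i
      simpa using norm_le_pi_norm (Fin.cons a w : Fin (d+1) → ℝ) i.succ

lemma max_pos' {d : ℕ} (w : Fin d → ℝ) : 0 < max (1 - ‖w‖) ‖w‖ := by
  rcases le_total ‖w‖ 0 with h | h
  · exact lt_max_of_lt_left (by linarith)
  · rcases h.eq_or_lt with h | h
    · exact lt_max_of_lt_left (by rw [← h]; norm_num)
    · exact lt_max_of_lt_right h

lemma norm_Ph {d : ℕ} {w : Fin d → ℝ} (hw : ‖w‖ ≤ 1) : ‖Ph d w‖ = 1 := by
  have h := max_pos' w
  rw [Ph, norm_smul, norm_cons, abs_of_nonneg (by linarith), norm_inv, Real.norm_eq_abs,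
    abs_of_pos h, inv_mul_cancel₀ h.ne']

lemma continuous_Ph (d : ℕ) : Continuous (Ph d) := by
  unfold Ph
  refine Continuous.smul (Continuous.inv₀ (by fun_prop) (fun w => (max_pos' w).ne')) ?_
  refine continuous_pi fun i => ?_
  refine Fin.cases ?_ (fun j => ?_) i
  · simp only [Fin.cons_zero]; fun_prop
  · simp only [Fin.cons_succ]; fun_prop

lemma Ph_neg {d : ℕ} {w : Fin d → ℝ} (hw : ‖w‖ = 1) : Ph d (-w) = - Ph d w := by
  funext i
  simp only [Ph, norm_neg, hw, Pi.smul_apply, Pi.neg_apply, smul_eq_mul]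
  refine Fin.cases ?_ (fun j => ?_) i
  · simp
  · simp

/-- Grid point. -/
noncomputable def pt {d : ℕ} (N : ℕ) (x : Fin d → ℤ) : Fin d → ℝ := fun j => (x j : ℝ) / N

lemma norm_pt_le {d N : ℕ} (hN : 0 < N) {x : Fin d → ℤ} (hx : ∀ j, |x j| ≤ N) : ‖pt N x‖ ≤ 1 := by
  rw [pi_norm_le_iff_of_nonneg zero_le_one]
  intro j
  have hN' : (0 : ℝ) < N := by exact_mod_cast hN
  rw [pt, Real.norm_eq_abs, abs_div, abs_of_pos hN', div_le_one hN']
  exact_mod_cast hx j

lemma norm_pt_eq {d N : ℕ} (hN : 0 < N) {x : Fin d → ℤ} (hx : ∀ j, |x j| ≤ N)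
    (hi : ∃ i, |x i| = N) : ‖pt N x‖ = 1 := by
  refine le_antisymm (norm_pt_le hN hx) ?_
  obtain ⟨i, hi⟩ := hi
  have hN' : (0 : ℝ) < N := by exact_mod_cast hN
  have h := norm_le_pi_norm (pt N x) i
  rw [pt, Real.norm_eq_abs, abs_div, abs_of_pos hN'] at h
  have h2 : |(x i : ℝ)| = N := by exact_mod_cast hi
  rw [h2, div_self hN'.ne'] at h
  exact h

lemma dist_pt_le {d N : ℕ} (hN : 0 < N) {x y : Fin d → ℤ} (h : ∀ j, |x j - y j| ≤ 1) :
    dist (pt N x) (pt N y) ≤ 1 / N := by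
  have hN' : (0 : ℝ) < N := by exact_mod_cast hN
  rw [dist_pi_le_iff (by positivity)]
  intro j
  rw [pt, pt, Real.dist_eq, ← sub_div, abs_div, abs_of_pos hN']
  have : |(x j : ℝ) - y j| ≤ 1 := by exact_mod_cast h j
  gcongr

/-- Approximate version. -/
lemma approx {d n : ℕ} (G : Fin n → (Fin d → ℝ) → ℝ) (th : Fin n → ℝ)
    (hc : ∀ i, ContinuousOn (G i) (Metric.closedBall 0 1))
    (hodd : ∀ i w, ‖w‖ = 1 → G i (-w) = - G i w)
    (hth : ∀ i, 0 < th i) (hcov : ∀ w, ‖w‖ ≤ 1 → ∃ i, th i ≤ |G i w|) {ε : ℝ} (hε : 0 < ε) :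
    ∃ w, ‖w‖ ≤ 1 ∧ ∃ I : Finset (Fin n), I.card = d + 1 ∧
      ∀ i ∈ I, ∀ j, |G j w| - th j ≤ |G i w| - th i + ε := by
  obtain ⟨i0, -⟩ := hcov 0 (by simp)
  have : Nonempty (Fin n) := ⟨i0⟩
  have ham : ∀ v : Fin n → ℝ, ∃ i, ∀ j, v j ≤ v i := fun v => Finite.exists_max v
  choose am ham using ham
  -- a uniform lower bound for thresholds
  obtain ⟨i1, hi1⟩ := Finite.exists_min th
  set η : ℝ := min (th i1) (ε / 2) with hη
  have hη0 : 0 < η := lt_min (hth i1) (by linarith)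
  -- uniform continuity
  have hGc : ContinuousOn (fun w => fun i => G i w) (Metric.closedBall (0 : Fin d → ℝ) 1) :=
    continuousOn_pi.mpr hc
  have hK : IsCompact (Metric.closedBall (0 : Fin d → ℝ) 1) := isCompact_closedBall 0 1
  have huc := hK.uniformContinuousOn_of_continuous hGc
  rw [Metric.uniformContinuousOn_iff] at huc
  obtain ⟨δ, hδ, huc⟩ := huc η hη0
  obtain ⟨N, hN⟩ := exists_nat_gt (1 / δ)
  have hN0 : 0 < N := by
    have : (0 : ℝ) < N := lt_trans (by positivity) hN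
    exact_mod_cast this
  have hNδ : (1 : ℝ) / N < δ := by
    have hN' : (0 : ℝ) < N := by exact_mod_cast hN0
    rw [div_lt_iff₀ hN']
    rw [div_lt_iff₀ hδ] at hN
    linarith
  have hclose : ∀ x y : Fin d → ℤ, (∀ j, |x j| ≤ N) → (∀ j, |y j| ≤ N) → (∀ j, |x j - y j| ≤ 1) →
      ∀ i, |G i (pt N x) - G i (pt N y)| < η := by
    intro x y hx hy hxy i
    have h1 := huc (pt N x) (by simpa using norm_pt_le hN0 hx) (pt N y)
      (by simpa using norm_pt_le hN0 hy) (lt_of_le_of_lt (dist_pt_le hN0 hxy) hNδ)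
    have h2 := (dist_pi_lt_iff hη0).mp h1 i
    rwa [Real.dist_eq] at h2
  set v : (Fin d → ℤ) → Fin n → ℝ := fun x i => |G i (pt N x)| - th i with hv
  set L : (Fin d → ℤ) → Fin n × Bool := fun x =>
    (am (v x), decide (0 < G (am (v x)) (pt N x))) with hLdef
  have hbig : ∀ x : Fin d → ℤ, (∀ j, |x j| ≤ N) → th (am (v x)) ≤ |G (am (v x)) (pt N x)| := by
    intro x hx
    obtain ⟨i, hi⟩ := hcov (pt N x) (norm_pt_le hN0 hx)
    have h1 := ham (v x) i
    have h2 : v x i = |G i (pt N x)| - th i := rfl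
    have h3 : v x (am (v x)) = |G (am (v x)) (pt N x)| - th (am (v x)) := rfl
    rw [h2, h3] at h1
    linarith
  have hNC : NoComp L N := by
    intro x y hx hy hxy heq
    simp only [hLdef, flip, Prod.mk.injEq] at heq
    obtain ⟨h1, h2⟩ := heq
    have hbx := hbig x hx
    have hby := hbig y hy
    rw [h1] at h2 hbx
    set i := am (v y)
    have hcl := hclose x y hx hy hxy i
    have hηi : η ≤ th i := (min_le_left _ _).trans (hi1 i)
    have hti := hth i
    rw [abs_lt] at hcl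
    by_cases hp : 0 < G i (pt N y)
    · simp only [hp, decide_true, Bool.not_true, decide_eq_false_iff_not, not_lt] at h2
      rw [abs_of_pos hp] at hby
      rw [abs_of_nonpos h2] at hbx
      linarith
    · simp only [hp, decide_false, Bool.not_false, decide_eq_true_eq] at h2
      push Not at hp
      rw [abs_of_nonpos hp] at hby
      rw [abs_of_pos h2] at hbx
      linarith
  have hAn : Anti L N := by
    intro x hx hi
    have hn := norm_pt_eq hN0 hx hi
    have hneg : pt N (-x) = - pt N x := by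
      funext j; simp [pt, neg_div]
    have hG : ∀ i, G i (pt N (-x)) = - G i (pt N x) := by
      intro i; rw [hneg]; exact hodd i _ hn
    have hvv : v (-x) = v x := by
      funext i; simp [hv, hG]
    simp only [hLdef, flip, hvv, hG]
    congr 1
    have hb := hbig x hx
    have ht := hth (am (v x))
    by_cases hp : 0 < G (am (v x)) (pt N x)
    · simp [hp, hp.le]
    · push Not at hp
      rw [abs_of_nonpos hp] at hb
      have : G (am (v x)) (pt N x) < 0 := by linarith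
      simp [this, this.le]
  obtain ⟨b, hb, I, hI, hI'⟩ := grid_fan hN0 hNC hAn
  refine ⟨pt N b, norm_pt_le hN0 hb, I, hI, ?_⟩
  intro i hi j
  obtain ⟨x, hx, hxb, hLx⟩ := hI' i hi
  simp only [hLdef] at hLx
  have h1 := ham (v x) j
  rw [hLx] at h1
  simp only [hv] at h1
  have h2 := hclose x b hx hb hxb i
  have h3 := hclose x b hx hb hxb j
  have h4 := abs_abs_sub_abs_le (G i (pt N x)) (G i (pt N b))
  have h5 := abs_abs_sub_abs_le (G j (pt N x)) (G j (pt N b))
  have hηε : η ≤ ε / 2 := min_le_right _ _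
  rw [abs_le] at h4 h5
  linarith [h4.1, h4.2, h5.1, h5.2]

/-- Exact version on the cube. -/
lemma cube_fan {d n : ℕ} (G : Fin n → (Fin d → ℝ) → ℝ) (th : Fin n → ℝ)
    (hc : ∀ i, ContinuousOn (G i) (Metric.closedBall 0 1))
    (hodd : ∀ i w, ‖w‖ = 1 → G i (-w) = - G i w)
    (hth : ∀ i, 0 < th i) (hcov : ∀ w, ‖w‖ ≤ 1 → ∃ i, th i ≤ |G i w|) :
    ∃ w, ‖w‖ ≤ 1 ∧ ∃ I : Finset (Fin n), I.card = d + 1 ∧
      ∀ i ∈ I, ∀ j, |G j w| - th j ≤ |G i w| - th i := by
  by_contra hcon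
  push Not at hcon
  obtain ⟨i0, -⟩ := hcov 0 (by simp)
  have hK : IsCompact (Metric.closedBall (0 : Fin d → ℝ) 1) := isCompact_closedBall 0 1
  have hev : ∀ I : Finset (Fin n), ∀ᶠ ε in nhdsWithin (0 : ℝ) (Set.Ioi 0), I.card = d + 1 →
      ∀ w, ‖w‖ ≤ 1 → ∃ i ∈ I, ∃ j, |G i w| - th i + ε < |G j w| - th j := by
    intro I
    by_cases hI : I.card = d + 1
    swap
    · exact Filter.Eventually.of_forall fun ε h => absurd h hI
    have hne : (I ×ˢ (Finset.univ : Finset (Fin n))).Nonempty := by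
      have : I.Nonempty := Finset.card_pos.mp (by omega)
      obtain ⟨i, hi⟩ := this
      exact ⟨(i, i0), by simp [hi]⟩
    set D : (Fin d → ℝ) → ℝ := fun w =>
      (I ×ˢ (Finset.univ : Finset (Fin n))).sup' hne
        (fun p => |G p.2 w| - th p.2 - (|G p.1 w| - th p.1)) with hD
    have hDc : ContinuousOn D (Metric.closedBall 0 1) := by
      refine ContinuousOn.finset_sup'_apply hne fun p _ => ?_
      exact (((hc p.2).abs).sub continuousOn_const).sub (((hc p.1).abs).sub continuousOn_const)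
    obtain ⟨w0, hw0, hmin⟩ := hK.exists_isMinOn ⟨0, by simp⟩ hDc
    have hpos : 0 < D w0 := by
      obtain ⟨i, hi, j, hj⟩ := hcon w0 (by simpa using hw0) I hI
      have : |G j w0| - th j - (|G i w0| - th i) ≤ D w0 :=
        Finset.le_sup' (fun p : Fin n × Fin n => |G p.2 w0| - th p.2 - (|G p.1 w0| - th p.1))
          (b := (i, j)) (by simp [hi])
      linarith
    have : Set.Ioo (0 : ℝ) (D w0) ∈ nhdsWithin (0 : ℝ) (Set.Ioi 0) := Ioo_mem_nhdsGT hpos
    filter_upwards [this] with ε hε _ w hw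
    obtain ⟨p, hp, hpe⟩ := Finset.exists_mem_eq_sup' hne
      (fun p : Fin n × Fin n => |G p.2 w| - th p.2 - (|G p.1 w| - th p.1))
    have h1 : D w0 ≤ D w := hmin (by simpa using hw)
    rw [Finset.mem_product] at hp
    refine ⟨p.1, hp.1, p.2, ?_⟩
    have h2 : D w = |G p.2 w| - th p.2 - (|G p.1 w| - th p.1) := hpe
    have := hε.2
    linarith
  obtain ⟨ε, hε, hε0⟩ := ((Filter.eventually_all.mpr hev).and self_mem_nhdsWithin).exists
  obtain ⟨w, hw, I, hI, h⟩ := approx G th hc hodd hth hcov hε0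
  obtain ⟨i, hi, j, hj⟩ := hε I hI w hw
  have := h i hi j
  linarith

/-- **Lusternik–Schnirelmann–Fan theorem with thresholds.** -/
theorem ls_fan {R n : ℕ} (hR : 0 < R) (F : Fin n → (Fin R → ℝ) → ℝ) (th : Fin n → ℝ)
    (hc : ∀ i, ContinuousOn (F i) {x | ‖x‖ = 1})
    (hodd : ∀ i x, ‖x‖ = 1 → F i (-x) = - F i x)
    (hth : ∀ i, 0 < th i) (hcov : ∀ x, ‖x‖ = 1 → ∃ i, th i ≤ |F i x|) :
    ∃ x, ‖x‖ = 1 ∧ ∃ I : Finset (Fin n), I.card = R ∧ ∃ M, 0 ≤ M ∧
      (∀ i ∈ I, |F i x| - th i = M) ∧ (∀ j, |F j x| - th j ≤ M) := by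
  obtain ⟨d, rfl⟩ : ∃ d, R = d + 1 := ⟨R - 1, by omega⟩
  obtain ⟨w, hw, I, hI, h⟩ := cube_fan (d := d) (fun i w => F i (Ph d w)) th
    (fun i => (hc i).comp (continuous_Ph d).continuousOn
      (fun w hw => norm_Ph (by simpa using hw)))
    (fun i w hw => by rw [Ph_neg hw]; exact hodd i _ (norm_Ph hw.le)) hth
    (fun w hw => hcov _ (norm_Ph hw))
  obtain ⟨i1, hi1⟩ : I.Nonempty := Finset.card_pos.mp (by omega)
  refine ⟨Ph d w, norm_Ph hw, I, hI, |F i1 (Ph d w)| - th i1, ?_, ?_, ?_⟩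
  · obtain ⟨j, hj⟩ := hcov _ (norm_Ph hw)
    have := h i1 hi1 j
    linarith
  · intro i hi
    exact le_antisymm (h i1 hi1 i) (h i hi i1)
  · intro j
    exact h i1 hi1 j

end Pool.Agent.Lib.MP_506ba8_co.H52
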