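import Mathlib

/-!
# The necklace map of a sphere into the cube, and its cells
-/

namespace Pool.Agent.Lib.MP_506ba8_co.H52

open Finset Function

variable {r m : ℕ}

/-! ### Abel sums with signs -/

/-- sign of a boolean -/
noncomputable def sg (b : Bool) : ℝ := if b then 1 else -1

lemma abs_sg (b : Bool) : |sg b| = 1 := by cases b <;> simp [sg]

/-- the signed Abel sum -/
noncomputable def TT (ε : Fin (r+1) → Bool) (b : ℝ) (a : Fin r → ℝ) : ℝ :=
  sg (ε (Fin.last r)) * b + ∑ l : Fin r, (sg (ε l.castSucc) - sg (ε l.succ)) * a l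

lemma TT_succ (ε : Fin (r+1+1) → Bool) (b : ℝ) (a : Fin (r+1) → ℝ) :
    TT ε b a = sg (ε (Fin.last (r+1))) * (b - a (Fin.last r))
      + TT (fun k => ε k.castSucc) (a (Fin.last r)) (fun l => a l.castSucc) := by
  unfold TT
  rw [Fin.sum_univ_castSucc]
  simp only [Fin.succ_last, Fin.succ_castSucc]
  ring

lemma abs_TT_le : ∀ (r : ℕ) (ε : Fin (r+1) → Bool) (b : ℝ) (a : Fin r → ℝ), Monotone a →
    0 ≤ b → (∀ l, 0 ≤ a l) → (∀ l, a l ≤ b) → |TT ε b a| ≤ b := by
  intro r
  induction r with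
  | zero =>
    intro ε b a _ hb _ _
    simp [TT, abs_mul, abs_sg, abs_of_nonneg hb]
  | succ r ih =>
    intro ε b a ha hb h0 hle
    rw [TT_succ]
    have h1 := ih (fun k => ε k.castSucc) (a (Fin.last r)) (fun l => a l.castSucc)
      (fun i j hij => ha (Fin.castSucc_le_castSucc_iff.mpr hij)) (h0 _) (fun l => h0 _)
      (fun l => ha (Fin.le_last _))
    have h2 : |sg (ε (Fin.last (r+1))) * (b - a (Fin.last r))| = b - a (Fin.last r) := by
      rw [abs_mul, abs_sg, one_mul, abs_of_nonneg]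
      linarith [hle (Fin.last r)]
    have h3 := abs_add_le (sg (ε (Fin.last (r+1))) * (b - a (Fin.last r)))
      (TT (fun k => ε k.castSucc) (a (Fin.last r)) (fun l => a l.castSucc))
    rw [h2] at h3
    linarith

lemma abs_TT_eq : ∀ (r : ℕ) (ε : Fin (r+1) → Bool) (a : Fin r → ℝ), Monotone a →
    (∀ l, a l = 0 ∨ a l = 1) → |TT ε 1 a| = 1 := by
  intro r
  induction r with
  | zero =>
    intro ε a _ _
    simp [TT, abs_sg]
  | succ r ih =>
    intro ε a ha h01
    rcases h01 (Fin.last r) with h | h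
    · have h0 : ∀ l, a l = 0 := by
        intro l
        rcases h01 l with h' | h'
        · exact h'
        · have := ha (Fin.le_last l)
          rw [h, h'] at this
          norm_num at this
      simp [TT, h0, abs_sg]
    · rw [TT_succ, h, sub_self, mul_zero, zero_add]
      exact ih _ _ (fun i j hij => ha (Fin.castSucc_le_castSucc_iff.mpr hij)) (fun l => h01 _)

/-! ### The necklace map -/

/-- length of `[0,s] ∩ [a,a+1]` -/
noncomputable def clip (a s : ℝ) : ℝ := min (max (s - a) 0) 1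

lemma clip_mono (a : ℝ) : Monotone (clip a) := by
  intro x y h
  unfold clip
  exact min_le_min_right _ (max_le_max_right _ (by linarith))

lemma clip_nonneg (a s : ℝ) : 0 ≤ clip a s := le_min (le_max_right _ _) zero_le_one

lemma clip_le_one (a s : ℝ) : clip a s ≤ 1 := min_le_right _ _

/-- total mass -/
noncomputable def ZZ (w : Fin (r+1) → ℝ) : ℝ := ∑ k, |w k|

/-- division points of the necklace -/
noncomputable def SS (m : ℕ) (w : Fin (r+1) → ℝ) (k : ℕ) : ℝ :=
  m * (∑ i : Fin (r+1) with i.val < k, |w i|) / ZZ w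

/-- the necklace map -/
noncomputable def nk (m : ℕ) (w : Fin (r+1) → ℝ) (j : Fin m) : ℝ :=
  ∑ k : Fin (r+1), (clip j (SS m w k + m * max (w k) 0 / ZZ w)
    - clip j (SS m w k + m * max (-(w k)) 0 / ZZ w))

lemma ZZ_pos {w : Fin (r+1) → ℝ} (hw : ‖w‖ = 1) : 0 < ZZ w := by
  have h0 : 0 ≤ ZZ w := Finset.sum_nonneg fun _ _ => abs_nonneg _
  rcases h0.eq_or_lt with h | h
  · exfalso
    have h1 : w = 0 := by
      funext k
      have := (Finset.sum_eq_zero_iff_of_nonneg (fun i _ => abs_nonneg (w i))).mp h.symm k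
        (Finset.mem_univ k)
      simpa using this
    rw [h1, norm_zero] at hw
    norm_num at hw
  · exact h

lemma SS_zero (w : Fin (r+1) → ℝ) : SS m w 0 = 0 := by simp [SS]

lemma SS_last {w : Fin (r+1) → ℝ} (hw : ‖w‖ = 1) : SS m w (r+1) = m := by
  have h := ZZ_pos hw
  have : (∑ i : Fin (r+1) with i.val < r+1, |w i|) = ZZ w := by
    rw [Finset.filter_true_of_mem (fun i _ => i.isLt)]
    rfl
  rw [SS, this, mul_div_assoc, div_self h.ne', mul_one]

lemma SS_succ (w : Fin (r+1) → ℝ) (k : Fin (r+1)) :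
    SS m w (k+1) = SS m w k + m * |w k| / ZZ w := by
  have : (Finset.univ.filter (fun i : Fin (r+1) => i.val < k.val+1))
      = insert k (Finset.univ.filter (fun i : Fin (r+1) => i.val < k.val)) := by
    ext i
    simp only [Finset.mem_filter, Finset.mem_univ, true_and, Finset.mem_insert, Fin.ext_iff]
    omega
  rw [SS, SS, this, Finset.sum_insert (by simp)]
  ring

lemma SS_mono (w : Fin (r+1) → ℝ) : Monotone (SS m w) := by
  intro a b hab
  unfold SS
  have h0 : 0 ≤ ZZ w := Finset.sum_nonneg fun _ _ => abs_nonneg _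
  apply div_le_div_of_nonneg_right _ h0
  apply mul_le_mul_of_nonneg_left _ (Nat.cast_nonneg m)
  apply Finset.sum_le_sum_of_subset_of_nonneg
  · intro i hi
    simp only [Finset.mem_filter, Finset.mem_univ, true_and] at hi ⊢
    omega
  · intro i _ _; exact abs_nonneg _

lemma nk_neg (w : Fin (r+1) → ℝ) (j : Fin m) : nk m (-w) j = - nk m w j := by
  have h1 : ZZ (-w) = ZZ w := by simp [ZZ]
  have h2 : ∀ k, SS m (-w) k = SS m w k := by intro k; simp [SS, h1]
  unfold nk
  rw [← Finset.sum_neg_distrib]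
  refine Finset.sum_congr rfl fun k _ => ?_
  rw [h1, h2, Pi.neg_apply, neg_neg]
  ring

lemma continuousOn_nk : ContinuousOn (fun w : Fin (r+1) → ℝ => nk m w) {w | ‖w‖ = 1} := by
  have hZ : Continuous (fun w : Fin (r+1) → ℝ => ZZ w) := by unfold ZZ; fun_prop
  have hne : ∀ w ∈ {w : Fin (r+1) → ℝ | ‖w‖ = 1}, ZZ w ≠ 0 := fun w hw => (ZZ_pos hw).ne'
  have hclip : ∀ a : ℝ, Continuous (clip a) := by intro a; unfold clip; fun_prop
  refine continuousOn_pi.mpr fun j => ?_
  unfold nk
  refine continuousOn_finsetSum _ fun k _ => ?_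
  have hS : ContinuousOn (fun w : Fin (r+1) → ℝ => SS m w k) {w | ‖w‖ = 1} := by
    unfold SS
    exact ContinuousOn.div (by fun_prop) hZ.continuousOn hne
  refine ContinuousOn.sub ?_ ?_
  · refine (hclip j).comp_continuousOn (hS.add ?_)
    exact ContinuousOn.div (by fun_prop) hZ.continuousOn hne
  · refine (hclip j).comp_continuousOn (hS.add ?_)
    exact ContinuousOn.div (by fun_prop) hZ.continuousOn hne

/-- signs of a point -/
noncomputable def eps (w : Fin (r+1) → ℝ) (k : Fin (r+1)) : Bool := decide (0 < w k)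

lemma nk_eq {w : Fin (r+1) → ℝ} (hw : ‖w‖ = 1) (j : Fin m) :
    nk m w j = TT (eps w) 1 (fun l => clip j (SS m w (l+1))) := by
  have hterm : ∀ k : Fin (r+1), (clip j (SS m w k + m * max (w k) 0 / ZZ w)
      - clip j (SS m w k + m * max (-(w k)) 0 / ZZ w))
      = sg (eps w k) * clip j (SS m w (k+1)) - sg (eps w k) * clip j (SS m w k) := by
    intro k
    rw [SS_succ]
    by_cases h : 0 < w k
    · have h1 : max (w k) 0 = |w k| := by rw [max_eq_left h.le, abs_of_pos h]
      have h2 : max (-(w k)) 0 = 0 := max_eq_right (by linarith)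
      rw [h1, h2]
      simp [sg, eps, h]
    · have h' : w k ≤ 0 := not_lt.mp h
      have h1 : max (w k) 0 = 0 := max_eq_right h'
      have h2 : max (-(w k)) 0 = |w k| := by rw [max_eq_left (by linarith), abs_of_nonpos h']
      rw [h1, h2]
      simp [sg, eps, h]
      ring
  have hj1 : (j : ℝ) + 1 ≤ m := by exact_mod_cast j.isLt
  have hm : clip j (SS m w (r+1)) = 1 := by
    rw [SS_last hw, clip, max_eq_left (by linarith), min_eq_right (by linarith)]
  have h0 : clip j (SS m w 0) = 0 := by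
    rw [SS_zero, clip, max_eq_right (by simp)]
    simp
  unfold nk
  rw [Finset.sum_congr rfl (fun k _ => hterm k), Finset.sum_sub_distrib,
    Fin.sum_univ_castSucc, Fin.sum_univ_succ (fun k : Fin (r+1) => sg (eps w k) * clip j (SS m w k))]
  simp only [Fin.val_last, Fin.val_zero, hm, h0, mul_zero, Fin.val_castSucc, Fin.val_succ, TT]
  rw [zero_add]
  have : ∑ l : Fin r, (sg (eps w l.castSucc) - sg (eps w l.succ)) * clip j (SS m w (l+1))
      = ∑ l : Fin r, sg (eps w l.castSucc) * clip j (SS m w (l+1))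
        - ∑ l : Fin r, sg (eps w l.succ) * clip j (SS m w (l+1)) := by
    rw [← Finset.sum_sub_distrib]
    exact Finset.sum_congr rfl fun l _ => by ring
  rw [this]
  ring

lemma mono_a (w : Fin (r+1) → ℝ) (j : Fin m) : Monotone (fun l : Fin r => clip j (SS m w (l+1))) := by
  intro a b hab
  apply clip_mono
  apply SS_mono
  have : a.val ≤ b.val := hab
  omega

lemma abs_nk_le {w : Fin (r+1) → ℝ} (hw : ‖w‖ = 1) (j : Fin m) : |nk m w j| ≤ 1 := by
  rw [nk_eq hw]
  exact abs_TT_le r _ 1 _ (mono_a w j) zero_le_one (fun l => clip_nonneg _ _)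
    (fun l => clip_le_one _ _)

/-! ### Cells -/

/-- piecewise linear function on a cell -/
noncomputable def lin (j c : Fin m) (s : ℝ) : ℝ := if j < c then 1 else if j = c then s - c else 0

lemma clip_eq_lin {j c : Fin m} {s : ℝ} (h1 : (c : ℝ) ≤ s) (h2 : s ≤ c + 1) :
    clip j s = lin j c s := by
  unfold clip lin
  split_ifs with h h'
  · have : (j : ℝ) + 1 ≤ c := by exact_mod_cast h
    rw [max_eq_left (by linarith), min_eq_right (by linarith)]
  · subst h'
    rw [max_eq_left (by linarith), min_eq_left (by linarith)]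
  · have : (c : ℝ) + 1 ≤ j := by
      have : c < j := lt_of_le_of_ne (not_lt.mp h) (Ne.symm h')
      exact_mod_cast this
    rw [max_eq_right (by linarith), min_eq_left (by linarith)]

/-- The type of cells. -/
abbrev Cell (r m : ℕ) : Type := (Fin (r+1) → Bool) × {c : Fin r → Fin m // Monotone c}

/-- the domain of a cell; the first coordinate is the excess -/
def Qc (U : ℝ) (c : Cell r m) : Set (Fin (r+1) → ℝ) :=
  {x | (0 ≤ x 0 ∧ x 0 ≤ U) ∧ (∀ l : Fin r, ((c.2.1 l : ℝ) ≤ x l.succ ∧ x l.succ ≤ c.2.1 l + 1)) ∧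
    Monotone (fun l : Fin r => x l.succ)}

/-- the affine map of a cell -/
noncomputable def Yc (c : Cell r m) (x : Fin (r+1) → ℝ) (j : Fin m) : ℝ :=
  TT c.1 1 (fun l => lin j (c.2.1 l) (x l.succ))

lemma Yc_eq {U : ℝ} {c : Cell r m} {x : Fin (r+1) → ℝ} (hx : x ∈ Qc U c) (j : Fin m) :
    Yc c x j = TT c.1 1 (fun l => clip j (x l.succ)) := by
  unfold Yc
  congr 1
  funext l
  exact (clip_eq_lin (hx.2.1 l).1 (hx.2.1 l).2).symm

lemma abs_Yc_le {U : ℝ} {c : Cell r m} {x : Fin (r+1) → ℝ} (hx : x ∈ Qc U c) (j : Fin m) :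
    |Yc c x j| ≤ 1 := by
  rw [Yc_eq hx]
  exact abs_TT_le r _ 1 _ (fun a b hab => clip_mono _ (hx.2.2 hab)) zero_le_one
    (fun l => clip_nonneg _ _) (fun l => clip_le_one _ _)

/-- the cell index of a real number -/
noncomputable def cf (hm : 0 < m) (s : ℝ) : Fin m := ⟨min ⌊s⌋₊ (m-1), by omega⟩

lemma cf_mono (hm : 0 < m) : Monotone (cf hm) := by
  intro a b hab
  have := Nat.floor_mono hab
  show min ⌊a⌋₊ (m-1) ≤ min ⌊b⌋₊ (m-1)
  omega

lemma cf_le (hm : 0 < m) {s : ℝ} (h0 : 0 ≤ s) : ((cf hm s : Fin m) : ℝ) ≤ s := by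
  have h1 : ((min ⌊s⌋₊ (m-1) : ℕ) : ℝ) ≤ (⌊s⌋₊ : ℝ) := by
    exact_mod_cast min_le_left _ _
  exact h1.trans (Nat.floor_le h0)

lemma le_cf (hm : 0 < m) {s : ℝ} (h1 : s ≤ m) : s ≤ ((cf hm s : Fin m) : ℝ) + 1 := by
  show s ≤ ((min ⌊s⌋₊ (m-1) : ℕ) : ℝ) + 1
  rcases le_total ⌊s⌋₊ (m-1) with h | h
  · rw [min_eq_left h]
    exact (Nat.lt_floor_add_one s).le
  · rw [min_eq_right h]
    have : ((m - 1 : ℕ) : ℝ) + 1 = m := by
      rw [Nat.cast_sub (by omega)]
      simp
    rw [this]
    exact h1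

/-- Every point of the sphere lies over a point of a cell with arbitrary excess `u`. -/
lemma exists_cell (hm : 0 < m) {w : Fin (r+1) → ℝ} (hw : ‖w‖ = 1) {U u : ℝ} (hu0 : 0 ≤ u)
    (hu : u ≤ U) : ∃ c : Cell r m, ∃ x ∈ Qc U c, x 0 = u ∧ ∀ j, nk m w j = Yc c x j := by
  have hS0 : ∀ k, 0 ≤ SS m w k := fun k => by
    have := SS_mono (m := m) w (Nat.zero_le k)
    rwa [SS_zero] at this
  have hSm : ∀ l : Fin r, SS m w (l+1) ≤ m := fun l => by
    have : SS m w (l+1) ≤ SS m w (r+1) := SS_mono (m := m) w (by omega)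
    rwa [SS_last hw] at this
  set s : Fin r → ℝ := fun l => SS m w (l+1) with hs
  have hsmono : Monotone s := fun a b hab => SS_mono (m := m) w (by
    have : a.val ≤ b.val := hab
    omega)
  set c : Cell r m := (eps w, ⟨fun l => cf hm (s l), fun a b hab => cf_mono hm (hsmono hab)⟩) with hc
  set x : Fin (r+1) → ℝ := Fin.cons u s with hx
  have hxQ : x ∈ Qc U c := by
    refine ⟨by simpa [hx] using ⟨hu0, hu⟩, fun l => ?_, ?_⟩
    · simp only [hx, Fin.cons_succ, hc]
      exact ⟨cf_le hm (hS0 _), le_cf hm (hSm l)⟩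
    · simpa [hx] using hsmono
  refine ⟨c, x, hxQ, by simp [hx], fun j => ?_⟩
  rw [nk_eq hw, Yc_eq hxQ]
  simp [hx, hc, hs]

/-- number of fractional coordinates -/
lemma frac_card (hm : 0 < m) {w : Fin (r+1) → ℝ} (hw : ‖w‖ = 1) :
    (Finset.univ.filter (fun j : Fin m => |nk m w j| < 1)).card ≤ r := by
  obtain ⟨c, x, hx, -, hY⟩ := exists_cell hm hw (le_refl (0 : ℝ)) (le_refl (0 : ℝ))
  have hsub : Finset.univ.filter (fun j : Fin m => |nk m w j| < 1)
      ⊆ Finset.univ.image (fun l : Fin r => c.2.1 l) := by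
    intro j hj
    rw [Finset.mem_filter] at hj
    by_contra hcon
    apply absurd hj.2
    rw [hY, Yc, abs_TT_eq]
    · exact lt_irrefl 1
    · intro a b hab
      simp only
      rw [← clip_eq_lin (hx.2.1 a).1 (hx.2.1 a).2, ← clip_eq_lin (hx.2.1 b).1 (hx.2.1 b).2]
      exact clip_mono _ (hx.2.2 hab)
    · intro l
      have hne : j ≠ c.2.1 l := by
        intro h
        apply hcon
        rw [Finset.mem_image]
        exact ⟨l, Finset.mem_univ _, h.symm⟩
      unfold lin
      split_ifs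
      · right; rfl
      · left; rfl
  refine (Finset.card_le_card hsub).trans (Finset.card_image_le.trans ?_)
  simp

end Pool.Agent.Lib.MP_506ba8_co.H52
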