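import Mathlib

/-!
# Ky Fan's lemma on the grid `[-N, N]^d` with antipodal labels on the boundary

Purely algebraic proof over `ZMod 2`.  Labels are variables of a polynomial ring, monotone
chains of a cell are monomials, the boundary operator is the derivation sending every variable
to `1`.
-/

namespace Pool.Agent.Lib.MP_506ba8_co.H52

open Finset Function

/-! ### Alternating weights -/

/-- `alt n s β = 1` iff all entries of `s` are `(0,0)`, `(1,0)` or `(0,1)` and the nonzero ones
alternate, starting with `(1,0)` if `β` and with `(0,1)` otherwise. -/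
def alt : (n : ℕ) → (Fin n → ℕ × ℕ) → Bool → ZMod 2
  | 0, _, _ => 1
  | n+1, s, β =>
    if s 0 = (0,0) then alt n (fun i => s i.succ) β
    else if s 0 = (1,0) then (if β then alt n (fun i => s i.succ) false else 0)
    else if s 0 = (0,1) then (if β then 0 else alt n (fun i => s i.succ) true)
    else 0

lemma tail_update_zero {n : ℕ} (s : Fin (n+1) → ℕ × ℕ) (v : ℕ × ℕ) :
    (fun i : Fin n => update s 0 v i.succ) = fun i => s i.succ := by
  funext i; simp [update_apply, Fin.succ_ne_zero]

lemma tail_update_succ {n : ℕ} (s : Fin (n+1) → ℕ × ℕ) (k : Fin n) (v : ℕ × ℕ) :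
    (fun i : Fin n => update s k.succ v i.succ) = update (fun i => s i.succ) k v := by
  funext i; simp [update_apply]

lemma altD : ∀ (n : ℕ) (s : Fin n → ℕ × ℕ), (∀ i, (s i).1 = 0 ∨ (s i).2 = 0) → ∀ β : Bool,
    ∑ i, (((s i).1 : ZMod 2) * alt n (update s i ((s i).1 - 1, (s i).2)) β
      + ((s i).2 : ZMod 2) * alt n (update s i ((s i).1, (s i).2 - 1)) β)
      = alt n s β + alt n s (!β) := by
  intro n
  induction n with
  | zero =>
    intro s _ β
    simp only [alt, Finset.univ_eq_empty, Finset.sum_empty]
    decide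
  | succ n ih =>
    intro s hs β
    have ihs := ih (fun i => s i.succ) (fun i => hs i.succ)
    have h2 : (2 : ZMod 2) = 0 := by decide
    have hcc : ∀ x : ZMod 2, x + x = 0 := fun x => by rw [← two_mul, h2, zero_mul]
    rw [Fin.sum_univ_succ]
    have hs0 := hs 0
    obtain ⟨a, b, hab⟩ : ∃ a b, s 0 = (a, b) := ⟨_, _, rfl⟩
    have hne : ∀ (i : Fin n) (v : ℕ × ℕ), update s i.succ v 0 = s 0 := by
      intro i v
      rw [update_of_ne (Fin.succ_ne_zero i).symm]
    have key : ∀ (γ : Bool), (∑ i : Fin n, (((s i.succ).1 : ZMod 2) * alt n (update (fun i => s i.succ) i ((s i.succ).1 - 1, (s i.succ).2)) γ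
      + ((s i.succ).2 : ZMod 2) * alt n (update (fun i => s i.succ) i ((s i.succ).1, (s i.succ).2 - 1)) γ)) = alt n (fun i => s i.succ) γ + alt n (fun i => s i.succ) (!γ) := fun γ => ihs γ
    have kt := key true
    have kf := key false
    simp only [Bool.not_true, Bool.not_false] at kt kf
    rw [hab] at hs0
    simp only [alt, tail_update_zero, tail_update_succ, update_self, hne, hab]
    generalize hA : alt n (fun i => s i.succ) true = A at *
    generalize hB : alt n (fun i => s i.succ) false = B at *
    clear ih ihs key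
    have e1 : ∀ x y : ZMod 2, x + (x + y) = y := by decide
    have e2 : ∀ x y : ZMod 2, x + (y + x) = y := by decide
    rcases hs0 with h | h <;> simp only at h <;> subst h
    · rcases b with _ | _ | b
      · cases β <;> simp [kf, kt, hA, hB]
      · cases β <;> simp [kf, kt, hA, hB, e1, e2]
      · rcases b with _ | b
        · cases β
          · simp
            exact Or.inl h2
          · simp
        · cases β <;> simp
    · rcases a with _ | _ | a
      · cases β <;> simp [kf, kt, hA, hB]
      · cases β <;> simp [kf, kt, hA, hB, e1, e2]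
      · rcases a with _ | a
        · cases β
          · simp
          · simp
            exact Or.inl h2
        · cases β <;> simp

/-! ### The chain polynomials -/

section poly

variable {n d : ℕ}

/-- Flip the sign of a label. -/
def flip (v : Fin n × Bool) : Fin n × Bool := (v.1, !v.2)

lemma flip_flip (v : Fin n × Bool) : flip (flip v) = v := by simp [flip]

/-- unit vector -/
def e (i : Fin d) : Fin d → ℤ := Pi.single i 1

/-- The indicator vector of a set of directions. -/
def ind (T : Finset (Fin d)) : Fin d → ℤ := fun i => if i ∈ T then 1 else 0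

/-- Sum over all chains of length `k` in the cell with corner `b` and directions `J`. -/
noncomputable def P (L : (Fin d → ℤ) → Fin n × Bool) :
    ℕ → Finset (Fin d) → (Fin d → ℤ) → MvPolynomial (Fin n × Bool) (ZMod 2)
  | 0, _, b => MvPolynomial.X (L b)
  | k+1, J, b => MvPolynomial.X (L b) * ∑ i ∈ J, P L k (J.erase i) (b + e i)

/-- The boundary operator. -/
noncomputable def bd : Derivation (ZMod 2) (MvPolynomial (Fin n × Bool) (ZMod 2))
    (MvPolynomial (Fin n × Bool) (ZMod 2)) :=
  MvPolynomial.mkDerivation (ZMod 2) (fun _ => 1)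

lemma bd_X (v : Fin n × Bool) : bd (MvPolynomial.X v : MvPolynomial (Fin n × Bool) (ZMod 2)) = 1 := by
  simp [bd]

lemma poly_add_self (p : MvPolynomial (Fin n × Bool) (ZMod 2)) : p + p = 0 :=
  CharTwo.add_self_eq_zero p

/-- A symmetric double sum over ordered pairs vanishes in characteristic two. -/
lemma sum_erase_symm {M : Type*} [AddCommMonoid M] (hM : ∀ x : M, x + x = 0)
    (J : Finset (Fin d)) (g : Fin d → Fin d → M) (hg : ∀ i j, g i j = g j i) :
    ∑ i ∈ J, ∑ j ∈ J.erase i, g i j = 0 := by
  have h1 : ∑ i ∈ J, ∑ j ∈ J.erase i, g i j = ∑ x ∈ J.offDiag, g x.1 x.2 := by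
    rw [Finset.sum_sigma']
    refine Finset.sum_bij' (fun x _ => (x.1, x.2)) (fun x _ => ⟨x.1, x.2⟩) ?_ ?_ ?_ ?_ ?_
    · rintro ⟨i, j⟩ h
      simp only [Finset.mem_sigma, Finset.mem_erase] at h
      simp only [Finset.mem_offDiag]
      exact ⟨h.1, h.2.2, fun h' => h.2.1 h'.symm⟩
    · rintro ⟨i, j⟩ h
      simp only [Finset.mem_offDiag] at h
      simp only [Finset.mem_sigma, Finset.mem_erase]
      exact ⟨h.1, fun h' => h.2.2 h'.symm, h.2.1⟩
    · rintro ⟨i, j⟩ h; rfl
    · rintro ⟨i, j⟩ h; rfl
    · rintro ⟨i, j⟩ h; rfl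
  rw [h1]
  refine Finset.sum_involution (fun x _ => (x.2, x.1)) ?_ ?_ ?_ ?_
  · rintro ⟨i, j⟩ h
    simp only
    rw [hg j i]
    exact hM _
  · rintro ⟨i, j⟩ h h' h''
    simp only [Prod.mk.injEq] at h''
    simp only [Finset.mem_offDiag] at h
    exact h.2.2 h''.2
  · rintro ⟨i, j⟩ h
    simp only [Finset.mem_offDiag] at h ⊢
    exact ⟨h.2.1, h.1, fun h' => h.2.2 h'.symm⟩
  · rintro ⟨i, j⟩ h; rfl

lemma sum_erase_comm {M : Type*} [AddCommMonoid M]
    (J : Finset (Fin d)) (g : Fin d → Fin d → M) :
    ∑ i ∈ J, ∑ j ∈ J.erase i, g i j = ∑ j ∈ J, ∑ i ∈ J.erase j, g i j := by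
  refine Finset.sum_comm' ?_
  intro x y
  simp only [Finset.mem_erase]
  constructor
  · rintro ⟨h1, h2, h3⟩; exact ⟨⟨fun h => h2 h.symm, h1⟩, h3⟩
  · rintro ⟨⟨h2, h1⟩, h3⟩; exact ⟨h1, fun h => h2 h.symm, h3⟩

lemma bd_P (L : (Fin d → ℤ) → Fin n × Bool) : ∀ (k : ℕ) (J : Finset (Fin d)) (b : Fin d → ℤ),
    bd (P L (k+1) J b) = ∑ i ∈ J, P L k (J.erase i) (b + e i) + ∑ i ∈ J, P L k (J.erase i) b := by
  intro k
  induction k with
  | zero =>
    intro J b
    simp only [P, Derivation.leibniz, smul_eq_mul, bd_X, mul_one, map_sum]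
    rw [add_comm]
    congr 1
    rw [Finset.mul_sum]
    simp [mul_comm]
  | succ k ih =>
    intro J b
    rw [P]
    rw [Derivation.leibniz, bd_X, smul_eq_mul, smul_eq_mul, mul_one, map_sum]
    rw [add_comm]
    congr 1
    have h1 : ∀ i ∈ J, bd (P L (k+1) (J.erase i) (b + e i))
        = ∑ j ∈ J.erase i, P L k ((J.erase i).erase j) (b + e i + e j)
          + ∑ j ∈ J.erase i, P L k ((J.erase i).erase j) (b + e i) := fun i _ => ih _ _
    rw [Finset.sum_congr rfl h1, Finset.sum_add_distrib, sum_erase_symm poly_add_self, zero_add,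
      sum_erase_comm, Finset.mul_sum]
    · refine Finset.sum_congr rfl fun j hj => ?_
      rw [P]
      congr 1
      refine Finset.sum_congr rfl fun i hi => ?_
      rw [Finset.erase_right_comm]
    · intro i j
      rw [Finset.erase_right_comm, add_right_comm]

lemma ind_erase {J : Finset (Fin d)} {i : Fin d} (hi : i ∈ J) :
    ind J = e i + ind (J.erase i) := by
  funext j
  simp only [ind, e, Pi.add_apply, Pi.single_apply, Finset.mem_erase]
  by_cases h : j = i
  · subst h; simp [hi]
  · simp [h]

lemma P_top (L : (Fin d → ℤ) → Fin n × Bool) : ∀ (k : ℕ) (J : Finset (Fin d)) (b : Fin d → ℤ),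
    J.card = k + 1 → P L (k+1) J b
      = MvPolynomial.X (L (b + ind J)) * ∑ i ∈ J, P L k (J.erase i) b := by
  intro k
  induction k with
  | zero =>
    intro J b hJ
    obtain ⟨i, rfl⟩ := Finset.card_eq_one.mp hJ
    simp only [P, Finset.sum_singleton]
    have : ind ({i} : Finset (Fin d)) = e i := by
      rw [ind_erase (Finset.mem_singleton_self i)]
      simp [ind]
      rfl
    rw [this, mul_comm]
  | succ k ih =>
    intro J b hJ
    rw [P]
    have h1 : ∀ i ∈ J, P L (k+1) (J.erase i) (b + e i)
        = MvPolynomial.X (L (b + ind J)) * ∑ j ∈ J.erase i, P L k ((J.erase i).erase j) (b + e i) := by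
      intro i hi
      rw [ih _ _ (by rw [Finset.card_erase_of_mem hi, hJ]; rfl), add_assoc, ← ind_erase hi]
    rw [Finset.sum_congr rfl h1, ← Finset.mul_sum, mul_left_comm, sum_erase_comm, Finset.mul_sum]
    congr 1
    refine Finset.sum_congr rfl fun j hj => ?_
    rw [P]
    congr 1
    refine Finset.sum_congr rfl fun i hi => ?_
    rw [Finset.erase_right_comm]

/-- Flipping the signs of all variables. -/
noncomputable def nu : MvPolynomial (Fin n × Bool) (ZMod 2) →ₐ[ZMod 2]
    MvPolynomial (Fin n × Bool) (ZMod 2) := MvPolynomial.rename flip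

lemma P_antipode (L : (Fin d → ℤ) → Fin n × Bool) : ∀ (k : ℕ) (J : Finset (Fin d))
    (b : Fin d → ℤ), J.card = k → (∀ T ⊆ J, L (-(b + ind T)) = flip (L (b + ind T))) →
    P L k J (-b - ind J) = nu (P L k J b) := by
  intro k
  induction k with
  | zero =>
    intro J b hJ h
    have hJ' := Finset.card_eq_zero.mp hJ
    subst hJ'
    have := h ∅ (Finset.Subset.refl _)
    have h0 : ind (∅ : Finset (Fin d)) = 0 := by funext i; simp [ind]
    rw [h0, add_zero] at this
    simp only [P, nu, MvPolynomial.rename_X, h0, sub_zero, this]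
  | succ k ih =>
    intro J b hJ h
    rw [P_top L k J b hJ, map_mul, P]
    have hb : -b - ind J = -(b + ind J) := by ring
    rw [hb, h J (Finset.Subset.refl _)]
    rw [← hb]
    congr 1
    · simp [nu]
    · rw [map_sum]
      refine Finset.sum_congr rfl fun i hi => ?_
      rw [← ih (J.erase i) b (by rw [Finset.card_erase_of_mem hi, hJ]; rfl)
        (fun T hT => h T (hT.trans (Finset.erase_subset _ _)))]
      congr 1
      rw [ind_erase hi]
      ring

/-! ### Supports -/

lemma P_support (L : (Fin d → ℤ) → Fin n × Bool) : ∀ (k : ℕ) (J : Finset (Fin d))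
    (b : Fin d → ℤ), ∀ s ∈ (P L k J b).support, ∀ v, s v ≠ 0 → ∃ T ⊆ J, L (b + ind T) = v := by
  intro k
  induction k with
  | zero =>
    intro J b s hs v hv
    simp only [P, MvPolynomial.support_X, Finset.mem_singleton] at hs
    subst hs
    refine ⟨∅, Finset.empty_subset _, ?_⟩
    have h0 : ind (∅ : Finset (Fin d)) = 0 := by funext i; simp [ind]
    rw [h0, add_zero]
    by_contra h
    exact hv (by simp [Finsupp.single_apply, h])
  | succ k ih =>
    intro J b s hs v hv
    rw [P, MvPolynomial.support_X_mul, Finset.mem_map] at hs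
    obtain ⟨t, ht, rfl⟩ := hs
    simp only [addLeftEmbedding_apply, Finsupp.add_apply] at hv
    by_cases h : L b = v
    · refine ⟨∅, Finset.empty_subset _, ?_⟩
      have h0 : ind (∅ : Finset (Fin d)) = 0 := by funext i; simp [ind]
      rw [h0, add_zero, h]
    · have hv' : t v ≠ 0 := by
        simpa [Finsupp.single_apply, h] using hv
      have ht' : t ∈ J.biUnion (fun i => (P L k (J.erase i) (b + e i)).support) :=
        MvPolynomial.support_sum ht
      rw [Finset.mem_biUnion] at ht'
      obtain ⟨i, hi, hti⟩ := ht'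
      obtain ⟨T, hT, hL⟩ := ih _ _ t hti v hv'
      have hiT : i ∉ T := fun h' => by simpa using hT h'
      refine ⟨insert i T, ?_, ?_⟩
      · intro x hx
        rw [Finset.mem_insert] at hx
        rcases hx with rfl | hx
        · exact hi
        · exact Finset.mem_of_mem_erase (hT hx)
      · rw [ind_erase (Finset.mem_insert_self i T), Finset.erase_insert hiT, ← add_assoc, hL]

lemma P_homog (L : (Fin d → ℤ) → Fin n × Bool) : ∀ (k : ℕ) (J : Finset (Fin d))
    (b : Fin d → ℤ), (P L k J b).IsHomogeneous (k+1) := by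
  intro k
  induction k with
  | zero => intro J b; exact MvPolynomial.isHomogeneous_X _ _
  | succ k ih =>
    intro J b
    rw [P, add_comm (k+1) 1]
    refine (MvPolynomial.isHomogeneous_X _ _).mul ?_
    exact MvPolynomial.IsHomogeneous.sum _ _ _ fun i _ => ih _ _

/-! ### The functional -/

/-- the pair of exponents -/
def pr (s : (Fin n × Bool) →₀ ℕ) (i : Fin n) : ℕ × ℕ := (s (i, true), s (i, false))

/-- The functional reading off the alternating monomials. -/
noncomputable def lam (β : Bool) : MvPolynomial (Fin n × Bool) (ZMod 2) →ₗ[ZMod 2] ZMod 2 :=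
  (MvPolynomial.basisMonomials (Fin n × Bool) (ZMod 2)).constr (ZMod 2)
    (fun s => alt n (pr s) β)

lemma lam_monomial (β : Bool) (s : (Fin n × Bool) →₀ ℕ) (a : ZMod 2) :
    lam β (MvPolynomial.monomial s a) = a * alt n (pr s) β := by
  have h : (MvPolynomial.monomial s a : MvPolynomial (Fin n × Bool) (ZMod 2))
      = a • MvPolynomial.basisMonomials (Fin n × Bool) (ZMod 2) s := by
    rw [MvPolynomial.coe_basisMonomials, MvPolynomial.smul_monomial, smul_eq_mul, mul_one]
  rw [h, map_smul, lam, Module.Basis.constr_basis, smul_eq_mul]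

lemma pr_sub_true (s : (Fin n × Bool) →₀ ℕ) (i : Fin n) :
    pr (s - Finsupp.single (i, true) 1) = update (pr s) i ((pr s i).1 - 1, (pr s i).2) := by
  funext j
  by_cases h : j = i
  · subst h
    simp [pr]
  · rw [update_of_ne h]
    simp [pr, Finsupp.single_apply, Ne.symm h]

lemma pr_sub_false (s : (Fin n × Bool) →₀ ℕ) (i : Fin n) :
    pr (s - Finsupp.single (i, false) 1) = update (pr s) i ((pr s i).1, (pr s i).2 - 1) := by
  funext j
  by_cases h : j = i
  · subst h
    simp [pr]
  · rw [update_of_ne h]
    simp [pr, Finsupp.single_apply, Ne.symm h]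

lemma lam_bd (β : Bool) (p : MvPolynomial (Fin n × Bool) (ZMod 2))
    (hp : ∀ s ∈ p.support, ∀ i, (pr s i).1 = 0 ∨ (pr s i).2 = 0) :
    lam β (bd p) = lam β p + lam (!β) p := by
  have h1 : ∀ s ∈ p.support, ∀ a : ZMod 2, lam β (bd (MvPolynomial.monomial s a))
      = lam β (MvPolynomial.monomial s a) + lam (!β) (MvPolynomial.monomial s a) := by
    intro s hs a
    rw [bd, MvPolynomial.mkDerivation_monomial, map_smul, lam_monomial, lam_monomial, ← mul_add,
      ← altD n (pr s) (hp s hs) β, smul_eq_mul]
    congr 1
    rw [Finsupp.sum_fintype _ _ (by intro i; simp), map_sum]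
    rw [Fintype.sum_prod_type]
    refine Finset.sum_congr rfl fun i _ => ?_
    rw [Fintype.sum_bool]
    simp only [smul_eq_mul, mul_one, lam_monomial, pr_sub_true, pr_sub_false]
    rfl
  rw [← MvPolynomial.support_sum_monomial_coeff p, map_sum, map_sum, map_sum, map_sum,
    ← Finset.sum_add_distrib]
  exact Finset.sum_congr rfl fun s hs => h1 s hs _

lemma alt_swap : ∀ (m : ℕ) (s : Fin m → ℕ × ℕ) (β : Bool),
    alt m (fun i => (s i).swap) β = alt m s (!β) := by
  intro m
  induction m with
  | zero => intro s β; rfl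
  | succ m ih =>
    intro s β
    have ihs := fun γ => ih (fun i => s i.succ) γ
    obtain ⟨a, b, hab⟩ : ∃ a b, s 0 = (a, b) := ⟨_, _, rfl⟩
    simp only [alt, hab, ihs, Prod.swap_prod_mk, Prod.mk.injEq]
    rcases a with _ | _ | a <;> rcases b with _ | _ | b <;> cases β <;> simp

lemma lam_nu (β : Bool) (p : MvPolynomial (Fin n × Bool) (ZMod 2)) :
    lam β (nu p) = lam (!β) p := by
  have hinj : Function.Injective (flip : Fin n × Bool → Fin n × Bool) := by
    intro x y h
    rw [← flip_flip x, h, flip_flip]
  induction p using MvPolynomial.induction_on' with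
  | monomial s a =>
    rw [nu, MvPolynomial.rename_monomial, lam_monomial, lam_monomial, ← alt_swap]
    congr 2
    funext i
    have h1 : Finsupp.mapDomain flip s (i, true) = s (i, false) := by
      have : (i, true) = flip (i, false) := rfl
      rw [this, Finsupp.mapDomain_apply hinj]
    have h2 : Finsupp.mapDomain flip s (i, false) = s (i, true) := by
      have : (i, false) = flip (i, true) := rfl
      rw [this, Finsupp.mapDomain_apply hinj]
    simp [pr, h1, h2]
  | add p q hp hq => rw [map_add, map_add, map_add, hp, hq]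

/-- If the functional does not vanish on a homogeneous polynomial then some monomial of its
support has many distinct labels. -/
lemma lam_ne_zero {β : Bool} {p : MvPolynomial (Fin n × Bool) (ZMod 2)} {k : ℕ}
    (hp : p.IsHomogeneous k) (h : lam β p ≠ 0) :
    ∃ s ∈ p.support, (Finset.univ.filter (fun i : Fin n => s (i, true) ≠ 0 ∨ s (i, false) ≠ 0)).card = k := by
  rw [← MvPolynomial.support_sum_monomial_coeff p, map_sum] at h
  obtain ⟨s, hs, hne⟩ := Finset.exists_ne_zero_of_sum_ne_zero h
  refine ⟨s, hs, ?_⟩
  rw [lam_monomial] at hne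
  have halt : alt n (pr s) β ≠ 0 := right_ne_zero_of_mul hne
  have hdeg : s.degree = k := by
    have := hp (MvPolynomial.mem_support_iff.mp hs)
    rw [Finsupp.degree_eq_weight_one]
    exact this
  have key : ∀ (m : ℕ) (s : Fin m → ℕ × ℕ) (β : Bool), alt m s β ≠ 0 →
      ∀ i, s i = (0,0) ∨ s i = (1,0) ∨ s i = (0,1) := by
    intro m
    induction m with
    | zero => intro s β _ i; exact i.elim0
    | succ m ih =>
      intro s β h i
      have ihs := fun γ => ih (fun i => s i.succ) γ
      rw [alt] at h
      split_ifs at h with h1 h2 h3 h4 h5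
      · refine Fin.cases ?_ (fun j => ?_) i
        · exact Or.inl h1
        · exact ihs _ h j
      · refine Fin.cases ?_ (fun j => ?_) i
        · exact Or.inr (Or.inl h2)
        · exact ihs _ h j
      · exact absurd rfl h
      · exact absurd rfl h
      · refine Fin.cases ?_ (fun j => ?_) i
        · exact Or.inr (Or.inr h4)
        · exact ihs _ h j
      · exact absurd rfl h
  have hk := key n (pr s) β halt
  have hd : s.degree = ∑ i : Fin n, (s (i, true) + s (i, false)) := by
    rw [Finsupp.degree_eq_sum, Fintype.sum_prod_type]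
    refine Finset.sum_congr rfl fun i _ => ?_
    rw [Fintype.sum_bool]
  rw [Finset.card_filter, ← hdeg, hd]
  refine Finset.sum_congr rfl fun i _ => ?_
  rcases hk i with h | h | h <;> simp only [pr, Prod.mk.injEq] at h <;> simp [h.1, h.2]

/-! ### Faces of the cube -/

/-- coordinate range of a face -/
noncomputable def Rg (N : ℕ) : Option Bool → Finset ℤ
  | none => Finset.Ico (-(N : ℤ)) N
  | some true => {(N : ℤ)}
  | some false => {-(N : ℤ)}

/-- lower corners of the cells of a face -/
noncomputable def Bx (N : ℕ) (q : Fin d → Option Bool) : Finset (Fin d → ℤ) :=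
  Fintype.piFinset (fun i => Rg N (q i))

/-- free directions -/
def Jf (q : Fin d → Option Bool) : Finset (Fin d) := Finset.univ.filter (fun i => q i = none)

/-- number (mod 2) of alternating simplices in a face -/
noncomputable def Fs (L : (Fin d → ℤ) → Fin n × Bool) (N : ℕ) (β : Bool)
    (q : Fin d → Option Bool) : ZMod 2 :=
  ∑ b ∈ Bx N q, lam β (P L (Jf q).card (Jf q) b)

lemma mem_Jf {q : Fin d → Option Bool} {i : Fin d} : i ∈ Jf q ↔ q i = none := by simp [Jf]

lemma Jf_update {q : Fin d → Option Bool} {i : Fin d} (c : Bool) :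
    Jf (update q i (some c)) = (Jf q).erase i := by
  ext j
  rw [mem_Jf, Finset.mem_erase, mem_Jf]
  by_cases h : j = i
  · subst h; simp
  · simp [update_of_ne h, h]

lemma telescope {N : ℕ} (hN : 0 < N) (g : (Fin d → ℤ) → ZMod 2) (q : Fin d → Option Bool)
    (i : Fin d) (hi : q i = none) :
    ∑ b ∈ Bx N q, g (b + e i) + ∑ b ∈ Bx N q, g b
      = ∑ b ∈ Bx N (update q i (some true)), g b + ∑ b ∈ Bx N (update q i (some false)), g b := by
  set B' : Finset (Fin d → ℤ) :=
    Fintype.piFinset (fun j => if j = i then Finset.Ioc (-(N : ℤ)) N else Rg N (q j)) with hB'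
  have h1 : ∑ b ∈ Bx N q, g (b + e i) = ∑ b ∈ B', g b := by
    refine Finset.sum_nbij' (fun b => b + e i) (fun b => b - e i) ?_ ?_ ?_ ?_ ?_
    · intro b hb
      simp only [Bx, hB', Fintype.mem_piFinset] at hb ⊢
      intro j
      have := hb j
      by_cases h : j = i
      · subst h
        simp only [hi, Rg, Finset.mem_Ico] at this
        simp only [if_true, Finset.mem_Ioc, Pi.add_apply, e, Pi.single_eq_same]
        omega
      · simpa [h, e] using this
    · intro b hb
      simp only [Bx, hB', Fintype.mem_piFinset] at hb ⊢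
      intro j
      have := hb j
      by_cases h : j = i
      · subst h
        simp only [if_true, Finset.mem_Ioc] at this
        simp only [hi, Rg, Finset.mem_Ico, Pi.sub_apply, e, Pi.single_eq_same]
        omega
      · simpa [h, e] using this
    · intro b _; simp
    · intro b _; simp
    · intro b _; simp
  have h2 : B'.filter (fun b : Fin d → ℤ => b i = (N : ℤ)) = Bx N (update q i (some true)) := by
    ext b
    simp only [Finset.mem_filter, Bx, hB', Fintype.mem_piFinset]
    constructor
    · rintro ⟨h, h'⟩ j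
      by_cases hj : j = i
      · subst hj; simp [Rg, h']
      · simpa [hj] using h j
    · intro h
      have hb : b i = (N : ℤ) := by simpa [Rg] using h i
      refine ⟨fun j => ?_, hb⟩
      by_cases hj : j = i
      · subst hj; simp [hb]; omega
      · simpa [hj] using h j
  have h3 : (Bx N q).filter (fun b : Fin d → ℤ => b i = -(N : ℤ)) = Bx N (update q i (some false)) := by
    ext b
    simp only [Finset.mem_filter, Bx, Fintype.mem_piFinset]
    constructor
    · rintro ⟨h, h'⟩ j
      by_cases hj : j = i
      · subst hj; simp [Rg, h']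
      · simpa [hj] using h j
    · intro h
      have hb : b i = -(N : ℤ) := by simpa [Rg] using h i
      refine ⟨fun j => ?_, hb⟩
      by_cases hj : j = i
      · subst hj; simp [hb, hi, Rg]; omega
      · simpa [hj] using h j
  have h4 : (Bx N q).filter (fun b : Fin d → ℤ => ¬ b i = -(N : ℤ)) = B'.filter (fun b : Fin d → ℤ => ¬ b i = (N : ℤ)) := by
    ext b
    simp only [Finset.mem_filter, Bx, hB', Fintype.mem_piFinset]
    constructor
    · rintro ⟨h, h'⟩
      have hb := h i
      simp only [hi, Rg, Finset.mem_Ico] at hb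
      refine ⟨fun j => ?_, by omega⟩
      by_cases hj : j = i
      · subst hj; simp only [if_true, Finset.mem_Ioc]; omega
      · simpa [hj] using h j
    · rintro ⟨h, h'⟩
      have hb := h i
      simp only [if_true, Finset.mem_Ioc] at hb
      refine ⟨fun j => ?_, by omega⟩
      by_cases hj : j = i
      · subst hj; simp only [hi, Rg, Finset.mem_Ico]; omega
      · simpa [hj] using h j
  rw [h1, ← Finset.sum_filter_add_sum_filter_not B' (fun b : Fin d → ℤ => b i = (N : ℤ)),
    ← Finset.sum_filter_add_sum_filter_not (Bx N q) (fun b : Fin d → ℤ => b i = -(N : ℤ)), h2, h3, h4]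
  have e3 : ∀ x y z : ZMod 2, x + y + (z + y) = x + z := by decide
  exact e3 _ _ _

/-- Labels of points of the grid at distance at most one are not opposite. -/
def NoComp (L : (Fin d → ℤ) → Fin n × Bool) (N : ℕ) : Prop :=
  ∀ x y : Fin d → ℤ, (∀ j, |x j| ≤ N) → (∀ j, |y j| ≤ N) → (∀ j, |x j - y j| ≤ 1) →
    L x ≠ flip (L y)

/-- The labelling is antipodal on the boundary. -/
def Anti (L : (Fin d → ℤ) → Fin n × Bool) (N : ℕ) : Prop :=
  ∀ x : Fin d → ℤ, (∀ j, |x j| ≤ N) → (∃ i, |x i| = N) → L (-x) = flip (L x)

lemma mem_cell {N : ℕ} {q : Fin d → Option Bool} {b : Fin d → ℤ} (hb : b ∈ Bx N q)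
    {T : Finset (Fin d)} (hT : T ⊆ Jf q) (j : Fin d) : |(b + ind T) j| ≤ N := by
  rw [Bx, Fintype.mem_piFinset] at hb
  have := hb j
  rw [Pi.add_apply, ind, abs_le]
  split_ifs with h
  · rw [mem_Jf.mp (hT h), Rg, Finset.mem_Ico] at this
    omega
  · rcases hq : q j with _ | c
    · rw [hq, Rg, Finset.mem_Ico] at this
      omega
    · rw [hq] at this
      cases c <;> simp [Rg] at this <;> omega

lemma noncomp_support {L : (Fin d → ℤ) → Fin n × Bool} {N : ℕ} (hL : NoComp L N)
    {q : Fin d → Option Bool} {b : Fin d → ℤ} (hb : b ∈ Bx N q) (k : ℕ) :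
    ∀ s ∈ (P L k (Jf q) b).support, ∀ i, (pr s i).1 = 0 ∨ (pr s i).2 = 0 := by
  intro s hs i
  by_contra hcon
  push Not at hcon
  obtain ⟨T, hT, h1⟩ := P_support L k (Jf q) b s hs (i, true) hcon.1
  obtain ⟨T', hT', h2⟩ := P_support L k (Jf q) b s hs (i, false) hcon.2
  refine hL _ _ (mem_cell hb hT) (mem_cell hb hT') ?_ (h1.trans ?_)
  · intro j
    simp only [Pi.add_apply, ind, abs_le]
    split_ifs <;> omega
  · rw [h2]; rfl

lemma face_rel {L : (Fin d → ℤ) → Fin n × Bool} {N : ℕ} (hN : 0 < N) (hL : NoComp L N)
    (β : Bool) (q : Fin d → Option Bool) (hq : Jf q ≠ ∅) :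
    Fs L N β q + Fs L N (!β) q
      = ∑ i ∈ Jf q, (Fs L N β (update q i (some true)) + Fs L N β (update q i (some false))) := by
  obtain ⟨k, hk⟩ : ∃ k, (Jf q).card = k + 1 :=
    ⟨(Jf q).card - 1, by have := Finset.card_pos.mpr (Finset.nonempty_iff_ne_empty.mpr hq); omega⟩
  rw [Fs, Fs, ← Finset.sum_add_distrib]
  have h1 : ∀ b ∈ Bx N q, lam β (P L (Jf q).card (Jf q) b) + lam (!β) (P L (Jf q).card (Jf q) b)
      = ∑ i ∈ Jf q, (lam β (P L k ((Jf q).erase i) (b + e i)) + lam β (P L k ((Jf q).erase i) b)) := by
    intro b hb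
    rw [← lam_bd β _ (noncomp_support hL hb _), hk, bd_P, map_add, map_sum, map_sum,
      Finset.sum_add_distrib]
  rw [Finset.sum_congr rfl h1, Finset.sum_comm]
  refine Finset.sum_congr rfl fun i hi => ?_
  rw [Finset.sum_add_distrib]
  have := telescope hN (fun b => lam β (P L k ((Jf q).erase i) b)) q i (mem_Jf.mp hi)
  rw [this, Fs, Fs, Jf_update, Jf_update, Finset.card_erase_of_mem hi, hk]
  rfl

/-- opposite face -/
def ng (q : Fin d → Option Bool) : Fin d → Option Bool := fun i => (q i).map (!·)

lemma ng_ng (q : Fin d → Option Bool) : ng (ng q) = q := by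
  funext i
  rcases h : q i with _ | c <;> simp [ng, h]

lemma Jf_ng (q : Fin d → Option Bool) : Jf (ng q) = Jf q := by
  ext i; simp [mem_Jf, ng]

lemma Fs_ng {L : (Fin d → ℤ) → Fin n × Bool} {N : ℕ} (hL : Anti L N)
    (β : Bool) (q : Fin d → Option Bool) (hq : ∃ i, q i ≠ none) :
    Fs L N β (ng q) = Fs L N (!β) q := by
  have hmem : ∀ q : Fin d → Option Bool, ∀ b ∈ Bx N q, -b - ind (Jf q) ∈ Bx N (ng q) := by
    intro q b hb
    simp only [Bx, Fintype.mem_piFinset] at hb ⊢
    intro j
    have := hb j
    simp only [Pi.sub_apply, Pi.neg_apply, ind, mem_Jf]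
    rcases hj : q j with _ | c
    · rw [hj] at this
      simp only [Rg, Finset.mem_Ico] at this
      simp only [ng, hj, Option.map_none, Rg, Finset.mem_Ico, if_true]
      omega
    · rw [hj] at this
      cases c <;> simp [ng, hj, Rg] at this ⊢ <;> omega
  rw [Fs, Fs, Jf_ng]
  symm
  refine Finset.sum_nbij' (fun b => -b - ind (Jf q)) (fun b => -b - ind (Jf q)) ?_ ?_ ?_ ?_ ?_
  · exact hmem q
  · intro b hb
    have := hmem (ng q) b hb
    rwa [ng_ng, Jf_ng] at this
  · intro b _; simp
  · intro b _; simp
  · intro b hb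
    rw [P_antipode L _ _ _ rfl, lam_nu]
    intro T hT
    refine hL _ (mem_cell hb hT) ?_
    obtain ⟨i, hi⟩ := hq
    refine ⟨i, ?_⟩
    have hiT : i ∉ T := fun h => hi (mem_Jf.mp (hT h))
    rw [Bx, Fintype.mem_piFinset] at hb
    have := hb i
    rcases hj : q i with _ | c
    · exact absurd hj hi
    · rw [hj] at this
      cases c <;> simp [Rg] at this <;> simp [ind, hiT, this]

/-! ### The alternating weight of a face -/

/-- sign vector of a face -/
def sv (q : Fin d → Option Bool) : Fin d → ℕ × ℕ := fun i =>
  match q i with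
  | none => (0, 0)
  | some true => (1, 0)
  | some false => (0, 1)

lemma sv_update_none (q : Fin d → Option Bool) (i : Fin d) :
    sv (update q i none) = update (sv q) i (0, 0) := by
  funext j
  by_cases h : j = i
  · subst h; simp [sv]
  · simp [sv, update_of_ne h]

lemma sv_ng (q : Fin d → Option Bool) : sv (ng q) = fun i => (sv q i).swap := by
  funext j
  rcases h : q j with _ | c
  · simp [sv, ng, h]
  · cases c <;> simp [sv, ng, h]

lemma altq_D (q : Fin d → Option Bool) (β : Bool) :
    ∑ i, (if q i = none then 0 else alt d (sv (update q i none)) β)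
      = alt d (sv q) β + alt d (sv q) (!β) := by
  rw [← altD d (sv q)]
  · refine Finset.sum_congr rfl fun i _ => ?_
    rw [sv_update_none]
    rcases h : q i with _ | c
    · simp [sv, h]
    · cases c <;> simp [sv, h]
  · intro i
    rcases h : q i with _ | c
    · simp [sv, h]
    · cases c <;> simp [sv, h]

lemma alt_full : ∀ (d : ℕ) (β : Bool),
    ∑ r : Fin d → Bool, alt d (sv (fun i => some (r i))) β = 1 := by
  intro d
  induction d with
  | zero => intro β; simp [alt]
  | succ d ih =>
    intro β
    rw [← (Fin.consEquiv (fun _ => Bool)).sum_comp, Fintype.sum_prod_type, Fintype.sum_bool]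
    have h1 : ∀ r : Fin d → Bool, alt (d+1) (sv (fun i => some (Fin.consEquiv (fun _ => Bool) (true, r) i))) β
        = if β then alt d (sv (fun i => some (r i))) false else 0 := by
      intro r
      simp [alt, sv, Fin.consEquiv]
      rfl
    have h2 : ∀ r : Fin d → Bool, alt (d+1) (sv (fun i => some (Fin.consEquiv (fun _ => Bool) (false, r) i))) β
        = if β then 0 else alt d (sv (fun i => some (r i))) true := by
      intro r
      simp [alt, sv, Fin.consEquiv]
      rfl
    simp only [h1, h2]
    cases β <;> simp [ih]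

lemma alt_full' (β : Bool) :
    ∑ q : Fin d → Option Bool with Jf q = ∅, alt d (sv q) β = 1 := by
  rw [← alt_full d β]
  symm
  refine Finset.sum_bij (fun r _ => fun i => some (r i)) ?_ ?_ ?_ ?_
  · intro r _
    simp only [Finset.mem_filter, Finset.mem_univ, true_and]
    ext i
    simp [mem_Jf]
  · intro r _ r' _ h
    funext i
    exact Option.some_injective _ (congrFun h i)
  · intro q hq
    simp only [Finset.mem_filter, Finset.mem_univ, true_and] at hq
    have : ∀ i, ∃ c, q i = some c := by
      intro i
      rcases h : q i with _ | c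
      · have : i ∈ Jf q := mem_Jf.mpr h
        rw [hq] at this
        simp at this
      · exact ⟨c, rfl⟩
    choose r hr using this
    exact ⟨r, Finset.mem_univ _, by funext i; rw [hr]⟩
  · intro r _; rfl

lemma vertex_sum (L : (Fin d → ℤ) → Fin n × Bool) (N : ℕ) (q : Fin d → Option Bool)
    (hq : Jf q = ∅) (β : Bool) : Fs L N β q + Fs L N (!β) q = 1 := by
  rw [Fs, Fs, ← Finset.sum_add_distrib, hq]
  have h1 : ∀ b ∈ Bx N q, lam β (P L (∅ : Finset (Fin d)).card ∅ b)
      + lam (!β) (P L (∅ : Finset (Fin d)).card ∅ b) = 1 := by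
    intro b _
    simp only [Finset.card_empty, P]
    rw [← lam_bd, bd_X]
    · have : (1 : MvPolynomial (Fin n × Bool) (ZMod 2)) = MvPolynomial.monomial 0 1 := rfl
      rw [this, lam_monomial, one_mul]
      have h0 : ∀ m : ℕ, ∀ β, alt m (fun _ => ((0, 0) : ℕ × ℕ)) β = 1 := by
        intro m
        induction m with
        | zero => intro β; rfl
        | succ m ih => intro β; simp [alt, ih]
      exact h0 n β
    · intro s hs i
      simp only [MvPolynomial.support_X, Finset.mem_singleton] at hs
      subst hs
      rcases hL : L b with ⟨j, c⟩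
      cases c <;> simp [pr]
  rw [Finset.sum_congr rfl h1, Finset.sum_const, Bx, Fintype.card_piFinset]
  have : ∀ i, (Rg N (q i)).card = 1 := by
    intro i
    rcases h : q i with _ | c
    · have : i ∈ Jf q := mem_Jf.mpr h
      rw [hq] at this
      simp at this
    · cases c <;> simp [Rg]
  simp [this]

lemma reindex (A F : (Fin d → Option Bool) → ZMod 2) (i : Fin d) :
    ∑ q, (if q i = none then A q * (F (update q i (some true)) + F (update q i (some false))) else 0)
      = ∑ q, F q * (if q i = none then 0 else A (update q i none)) := by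
  have h1 : ∀ c : Bool, ∑ q : Fin d → Option Bool with q i = none, A q * F (update q i (some c))
      = ∑ q : Fin d → Option Bool with q i = some c, F q * A (update q i none) := by
    intro c
    refine Finset.sum_nbij' (fun q => update q i (some c)) (fun q => update q i none) ?_ ?_ ?_ ?_ ?_
    · intro q hq; simp
    · intro q hq; simp
    · intro q hq
      simp only [Finset.mem_filter, Finset.mem_univ, true_and] at hq
      simp [← hq]
    · intro q hq
      simp only [Finset.mem_filter, Finset.mem_univ, true_and] at hq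
      simp [← hq]
    · intro q hq
      simp only [Finset.mem_filter, Finset.mem_univ, true_and] at hq
      rw [mul_comm]
      simp [← hq]
  rw [← Finset.sum_filter]
  simp only [mul_add, Finset.sum_add_distrib]
  rw [h1, h1, Finset.sum_filter, Finset.sum_filter, ← Finset.sum_add_distrib]
  refine Finset.sum_congr rfl fun q _ => ?_
  rcases h : q i with _ | c
  · simp
  · cases c <;> simp

/-- The parity statement. -/
theorem fan_parity {L : (Fin d → ℤ) → Fin n × Bool} {N : ℕ} (hN : 0 < N) (hL : NoComp L N)
    (hA : Anti L N) : Fs L N true (fun _ => none) + Fs L N false (fun _ => none) = 1 := by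
  set z : Fin d → Option Bool := fun _ => none with hz
  set A : (Fin d → Option Bool) → Bool → ZMod 2 := fun q β => alt d (sv q) β with hAdef
  have hA0 : ∀ β, A z β = 1 := by
    intro β
    have h0 : ∀ m : ℕ, ∀ β, alt m (fun _ => ((0, 0) : ℕ × ℕ)) β = 1 := by
      intro m
      induction m with
      | zero => intro β; rfl
      | succ m ih => intro β; simp [alt, ih]
    exact h0 d β
  set E : (Fin d → Option Bool) → ZMod 2 := fun q => Fs L N true q + Fs L N false q with hE
  -- full sum
  have h1 : ∑ q, A q true * E q = 1 + ∑ q, Fs L N true q * (A q true + A q false) := by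
    rw [← Finset.sum_filter_add_sum_filter_not Finset.univ (fun q : Fin d → Option Bool => Jf q = ∅)]
    congr 1
    · rw [← alt_full' (d := d) true]
      refine Finset.sum_congr rfl fun q hq => ?_
      simp only [Finset.mem_filter, Finset.mem_univ, true_and] at hq
      rw [hE]
      have := vertex_sum L N q hq true
      simp only [Bool.not_true] at this
      simp only [this, mul_one, hAdef]
    · have h2 : ∀ q : Fin d → Option Bool, Fs L N true q * (A q true + A q false)
          = ∑ i, Fs L N true q * (if q i = none then 0 else A (update q i none) true) := by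
        intro q
        have := altq_D q true
        simp only [Bool.not_true] at this
        rw [← Finset.mul_sum, ← this]
      simp only [h2]
      rw [Finset.sum_comm]
      have h3 : ∀ i : Fin d, ∑ q, Fs L N true q * (if q i = none then 0 else A (update q i none) true)
          = ∑ q, (if q i = none then A q true * (Fs L N true (update q i (some true))
            + Fs L N true (update q i (some false))) else 0) := by
        intro i
        rw [reindex (fun q => A q true) (Fs L N true) i]
      simp only [h3]
      rw [Finset.sum_comm, Finset.sum_filter]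
      refine Finset.sum_congr rfl fun q _ => ?_
      split_ifs with hq
      · symm
        refine Finset.sum_eq_zero fun i _ => ?_
        rw [if_neg]
        intro h
        have : i ∈ Jf q := mem_Jf.mpr h
        rw [hq] at this
        simp at this
      · rw [hE]
        have := face_rel hN hL true q hq
        simp only [Bool.not_true] at this
        simp only [this, Finset.mul_sum]
        rw [Jf, Finset.sum_filter]
  -- use of antipodality
  have h2 : ∑ q, Fs L N true q * (A q true + A q false)
      = ∑ q ∈ Finset.univ.erase z, A q true * E q := by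
    rw [← Finset.add_sum_erase Finset.univ _ (Finset.mem_univ z)]
    have hzz : Fs L N true z * (A z true + A z false) = 0 := by
      rw [hA0, hA0]
      have : (1 + 1 : ZMod 2) = 0 := by decide
      rw [this, mul_zero]
    rw [hzz, zero_add]
    simp only [mul_add, hE, Finset.sum_add_distrib]
    congr 1
    · exact Finset.sum_congr rfl fun q _ => mul_comm _ _
    · symm
      refine Finset.sum_nbij' ng ng ?_ ?_ ?_ ?_ ?_
      · intro q hq
        rw [Finset.mem_erase] at hq ⊢
        refine ⟨fun h => hq.1 ?_, Finset.mem_univ _⟩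
        rw [← ng_ng q, h]
        funext i; simp [ng, hz]
      · intro q hq
        rw [Finset.mem_erase] at hq ⊢
        refine ⟨fun h => hq.1 ?_, Finset.mem_univ _⟩
        rw [← ng_ng q, h]
        funext i; simp [ng, hz]
      · intro q _; exact ng_ng q
      · intro q _; exact ng_ng q
      · intro q hq
        rw [Finset.mem_erase] at hq
        have hq' : ∃ i, q i ≠ none := by
          by_contra hcon
          push Not at hcon
          exact hq.1 (funext hcon)
        rw [Fs_ng hA true q hq', mul_comm]
        congr 1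
        simp only [hAdef, sv_ng, alt_swap]
        rfl
  rw [h2, ← Finset.add_sum_erase Finset.univ (fun q => A q true * E q) (Finset.mem_univ z)] at h1
  have h3 := add_right_cancel h1
  rw [hA0, one_mul] at h3
  exact h3

/-- **Ky Fan's lemma on the grid.** -/
theorem grid_fan {L : (Fin d → ℤ) → Fin n × Bool} {N : ℕ} (hN : 0 < N) (hL : NoComp L N)
    (hA : Anti L N) : ∃ b : Fin d → ℤ, (∀ j, |b j| ≤ N) ∧ ∃ I : Finset (Fin n), I.card = d + 1 ∧
      ∀ i ∈ I, ∃ x : Fin d → ℤ, (∀ j, |x j| ≤ N) ∧ (∀ j, |x j - b j| ≤ 1) ∧ (L x).1 = i := by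
  have hpar := fan_parity hN hL hA
  set z : Fin d → Option Bool := fun _ => none with hz
  have hJ : Jf z = Finset.univ := by ext i; simp [mem_Jf, hz]
  obtain ⟨β, hβ⟩ : ∃ β, Fs L N β z ≠ 0 := by
    by_contra hcon
    push Not at hcon
    rw [hcon, hcon] at hpar
    exact absurd hpar (by decide)
  rw [Fs] at hβ
  obtain ⟨b, hb, hne⟩ := Finset.exists_ne_zero_of_sum_ne_zero hβ
  have hcard : (Jf z).card = d := by rw [hJ]; simp
  rw [hcard] at hne
  obtain ⟨s, hs, hcs⟩ := lam_ne_zero (P_homog L d (Jf z) b) hne
  refine ⟨b, fun j => ?_, _, hcs, ?_⟩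
  · have := mem_cell hb (Finset.empty_subset (Jf z)) j
    simpa [ind] using this
  · intro i hi
    rw [Finset.mem_filter] at hi
    rcases hi.2 with h | h
    · obtain ⟨T, hT, hL'⟩ := P_support L d (Jf z) b s hs _ h
      refine ⟨b + ind T, mem_cell hb hT, fun j => ?_, by rw [hL']⟩
      simp only [Pi.add_apply, ind, abs_le]
      split_ifs <;> omega
    · obtain ⟨T, hT, hL'⟩ := P_support L d (Jf z) b s hs _ h
      refine ⟨b + ind T, mem_cell hb hT, fun j => ?_, by rw [hL']⟩
      simp only [Pi.add_apply, ind, abs_le]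
      split_ifs <;> omega

end poly

end Pool.Agent.Lib.MP_506ba8_co.H52
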