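import Mathlib

/-!
# Multilinear extensions and rounding
-/

namespace Pool.Agent.Lib.MP_506ba8_co.H52

open Finset Function

variable {m n : ℕ}

/-- one factor of a weight -/
noncomputable def fac (x : Fin m → ℝ) (S : Finset (Fin m)) (j : Fin m) : ℝ :=
  if j ∈ S then (1 + x j) / 2 else (1 - x j) / 2

/-- The multilinear extension of a set function to the cube `[-1,1]^m`
(the value `1` of a coordinate means inside the set, `-1` means outside). -/
noncomputable def ME (F : Finset (Fin m) → ℝ) (x : Fin m → ℝ) : ℝ :=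
  ∑ S : Finset (Fin m), F S * ∏ j, fac x S j

/-- weight without the coordinate `j` -/
noncomputable def rw' (j : Fin m) (x : Fin m → ℝ) (t : Finset (Fin m)) : ℝ :=
  ∏ i ∈ Finset.univ.erase j, fac x t i

lemma rw'_update (j : Fin m) (x : Fin m → ℝ) (t : Finset (Fin m)) (a : ℝ) :
    rw' j (update x j a) t = rw' j x t := by
  refine Finset.prod_congr rfl fun i hi => ?_
  rw [fac, fac, update_of_ne (Finset.ne_of_mem_erase hi)]

lemma fac_nonneg {x : Fin m → ℝ} (hx : ∀ j, |x j| ≤ 1) (S : Finset (Fin m)) (j : Fin m) :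
    0 ≤ fac x S j := by
  have := abs_le.mp (hx j)
  unfold fac
  split_ifs <;> linarith [this.1, this.2]

lemma rw'_nonneg {x : Fin m → ℝ} (hx : ∀ j, |x j| ≤ 1) (j : Fin m) (t : Finset (Fin m)) :
    0 ≤ rw' j x t := Finset.prod_nonneg fun i _ => fac_nonneg hx t i

/-- The master formula. -/
lemma ME_split (F : Finset (Fin m) → ℝ) (x : Fin m → ℝ) (j : Fin m) :
    ME F x = ∑ t ∈ (Finset.univ.erase j).powerset,
      rw' j x t * ((1 - x j) / 2 * F t + (1 + x j) / 2 * F (insert j t)) := by
  have h0 : (Finset.univ : Finset (Finset (Fin m))) = (insert j (Finset.univ.erase j)).powerset := by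
    rw [Finset.insert_erase (Finset.mem_univ j)]
    simp
  rw [ME, h0, Finset.sum_powerset_insert (by simp), ← Finset.sum_add_distrib]
  refine Finset.sum_congr rfl fun t ht => ?_
  have hj : j ∉ t := fun h => by simpa using Finset.mem_powerset.mp ht h
  rw [← Finset.mul_prod_erase Finset.univ _ (Finset.mem_univ j),
    ← Finset.mul_prod_erase Finset.univ (fac x (insert j t)) (Finset.mem_univ j)]
  have h1 : fac x t j = (1 - x j) / 2 := by simp [fac, hj]
  have h2 : fac x (insert j t) j = (1 + x j) / 2 := by simp [fac]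
  have h3 : ∏ i ∈ Finset.univ.erase j, fac x (insert j t) i = rw' j x t := by
    refine Finset.prod_congr rfl fun i hi => ?_
    have := Finset.ne_of_mem_erase hi
    simp [fac, this]
  rw [h1, h2, h3, rw']
  ring

lemma sum_rw' (x : Fin m → ℝ) (j : Fin m) :
    ∑ t ∈ (Finset.univ.erase j).powerset, rw' j x t = 1 := by
  have h1 : ∀ t ∈ (Finset.univ.erase j).powerset, rw' j x t
      = (∏ i ∈ t, (1 + x i) / 2) * ∏ i ∈ (Finset.univ.erase j) \ t, (1 - x i) / 2 := by
    intro t ht
    rw [rw', ← Finset.prod_sdiff (Finset.mem_powerset.mp ht), mul_comm]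
    congr 1
    · refine Finset.prod_congr rfl fun i hi => ?_
      simp [fac, hi]
    · refine Finset.prod_congr rfl fun i hi => ?_
      simp [fac, (Finset.mem_sdiff.mp hi).2]
  rw [Finset.sum_congr rfl h1, ← Finset.prod_add]
  refine Finset.prod_eq_one fun i _ => ?_
  ring

/-- slope in direction `j` -/
noncomputable def slope (F : Finset (Fin m) → ℝ) (j : Fin m) (x : Fin m → ℝ) : ℝ :=
  ∑ t ∈ (Finset.univ.erase j).powerset, rw' j x t * (F (insert j t) - F t)

lemma ME_update (F : Finset (Fin m) → ℝ) (x : Fin m → ℝ) (j : Fin m) (a : ℝ) :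
    ME F (update x j a) = ME F x + (a - x j) * (slope F j x / 2) := by
  rw [ME_split F _ j, ME_split F x j, slope, Finset.sum_div, Finset.mul_sum,
    ← Finset.sum_add_distrib]
  refine Finset.sum_congr rfl fun t _ => ?_
  rw [rw'_update, update_self]
  ring

lemma abs_slope_le {F : Finset (Fin m) → ℝ} {D : ℝ}
    (hF : ∀ j S, |F (insert j S) - F (S.erase j)| ≤ D) {x : Fin m → ℝ} (hx : ∀ j, |x j| ≤ 1)
    (j : Fin m) : |slope F j x| ≤ D := by
  calc |slope F j x| ≤ ∑ t ∈ (Finset.univ.erase j).powerset, |rw' j x t * (F (insert j t) - F t)| :=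
        Finset.abs_sum_le_sum_abs _ _
    _ ≤ ∑ t ∈ (Finset.univ.erase j).powerset, rw' j x t * D := by
        refine Finset.sum_le_sum fun t ht => ?_
        have hj : j ∉ t := fun h => by simpa using Finset.mem_powerset.mp ht h
        rw [abs_mul, abs_of_nonneg (rw'_nonneg hx j t)]
        apply mul_le_mul_of_nonneg_left _ (rw'_nonneg hx j t)
        have := hF j t
        rwa [Finset.erase_eq_of_notMem hj] at this
    _ = D := by rw [← Finset.sum_mul, sum_rw', one_mul]

lemma differentiable_ME (F : Finset (Fin m) → ℝ) : Differentiable ℝ (ME F) := by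
  unfold ME
  refine Differentiable.fun_sum fun S _ => ?_
  refine Differentiable.mul (differentiable_const _) ?_
  have h : ∀ j, Differentiable ℝ (fun x : Fin m → ℝ => fac x S j) := by
    intro j
    unfold fac
    split_ifs <;> fun_prop
  intro x
  exact (HasFDerivAt.finsetProd (fun j _ => (h j x).hasFDerivAt)).differentiableAt

lemma fderiv_ME (F : Finset (Fin m) → ℝ) (x : Fin m → ℝ) (j : Fin m) :
    fderiv ℝ (ME F) x (Pi.single j 1) = slope F j x / 2 := by
  have h1 := ((differentiable_ME F) x).hasFDerivAt.hasLineDerivAt (Pi.single j 1)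
  have h2 : HasLineDerivAt ℝ (ME F) (slope F j x / 2) x (Pi.single j 1) := by
    rw [HasLineDerivAt]
    have : (fun t : ℝ => ME F (x + t • Pi.single j 1)) = fun t => ME F x + t * (slope F j x / 2) := by
      funext t
      have : x + t • Pi.single j 1 = update x j (x j + t) := by
        funext i
        by_cases h : i = j
        · subst h; simp
        · simp [h]
      rw [this, ME_update]
      ring
    rw [this]
    simpa using ((hasDerivAt_id (0 : ℝ)).mul_const (slope F j x / 2)).const_add (ME F x)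
  exact h1.lineDeriv.symm.trans h2.lineDeriv

lemma ME_neg (F : Finset (Fin m) → ℝ) (x : Fin m → ℝ) :
    ME F (-x) = ME (fun S => F Sᶜ) x := by
  unfold ME
  rw [← Equiv.sum_comp (Equiv.mk (fun S : Finset (Fin m) => Sᶜ) (fun S => Sᶜ)
    (fun S => compl_compl S) (fun S => compl_compl S))]
  refine Finset.sum_congr rfl fun S _ => ?_
  simp only [Equiv.coe_fn_mk]
  congr 1
  refine Finset.prod_congr rfl fun j _ => ?_
  simp only [fac, Finset.mem_compl, Pi.neg_apply]
  by_cases h : j ∈ S <;> simp [h, sub_eq_add_neg]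

lemma ME_vertex (F : Finset (Fin m) → ℝ) (x : Fin m → ℝ) (hx : ∀ j, x j = 1 ∨ x j = -1) :
    ME F x = F (Finset.univ.filter (fun j => x j = 1)) := by
  unfold ME
  rw [Finset.sum_eq_single (Finset.univ.filter (fun j => x j = 1))]
  · rw [Finset.prod_eq_one, mul_one]
    intro j _
    rcases hx j with h | h
    · simp [fac, h]
    · simp [fac, h]; norm_num
  · intro S _ hS
    rw [mul_eq_zero]
    right
    have : ∃ j, ¬ (j ∈ S ↔ x j = 1) := by
      by_contra hcon
      push Not at hcon
      exact hS (by ext j; simp [hcon])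
    obtain ⟨j, hj⟩ := this
    refine Finset.prod_eq_zero (Finset.mem_univ j) ?_
    rcases hx j with h | h
    · have : j ∉ S := fun h' => hj ⟨fun _ => h, fun _ => h'⟩
      simp [fac, this, h]
    · have : j ∈ S := by
        by_contra h'
        apply hj
        refine ⟨fun h'' => absurd h'' h', fun h'' => ?_⟩
        rw [h] at h''
        norm_num at h''
      simp [fac, this, h]
  · intro h; exact absurd (Finset.mem_univ _) h

/-! ### Rounding -/

/-- A two-point inequality. -/
lemma two_point {t a : ℝ} (ht : |t| ≤ 1) :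
    (1 + t) / 2 * Real.exp (a * (1 - t)) + (1 - t) / 2 * Real.exp (-(a * (1 + t)))
      ≤ Real.exp (a ^ 2) := by
  have ht' := abs_le.mp ht
  set P := (1 + t) / 2 * Real.exp (a * (1 - t)) + (1 - t) / 2 * Real.exp (-(a * (1 + t))) with hP
  set P' := (1 + t) / 2 * Real.exp (-(a * (1 - t))) + (1 - t) / 2 * Real.exp (a * (1 + t)) with hP'
  have h1 : 1 ≤ P' := by
    have e1 := Real.add_one_le_exp (-(a * (1 - t)))
    have e2 := Real.add_one_le_exp (a * (1 + t))
    have f1 := mul_le_mul_of_nonneg_left e1 (by linarith [ht'.1] : 0 ≤ (1 + t) / 2)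
    have f2 := mul_le_mul_of_nonneg_left e2 (by linarith [ht'.2] : 0 ≤ (1 - t) / 2)
    rw [hP']
    nlinarith
  have h0 : 0 ≤ P := by
    rw [hP]
    have f1 : 0 ≤ (1 + t) / 2 * Real.exp (a * (1 - t)) :=
      mul_nonneg (by linarith [ht'.1]) (Real.exp_pos _).le
    have f2 : 0 ≤ (1 - t) / 2 * Real.exp (-(a * (1 + t))) :=
      mul_nonneg (by linarith [ht'.2]) (Real.exp_pos _).le
    linarith
  have h2 : P * P' ≤ Real.cosh a ^ 2 := by
    have e1 : Real.exp (a * (1 - t)) * Real.exp (-(a * (1 - t))) = 1 := by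
      rw [← Real.exp_add]; simp
    have e2 : Real.exp (-(a * (1 + t))) * Real.exp (a * (1 + t)) = 1 := by
      rw [← Real.exp_add]; simp
    have e3 : Real.exp (a * (1 - t)) * Real.exp (a * (1 + t)) = Real.exp (2 * a) := by
      rw [← Real.exp_add]; congr 1; ring
    have e4 : Real.exp (-(a * (1 + t))) * Real.exp (-(a * (1 - t))) = Real.exp (-(2 * a)) := by
      rw [← Real.exp_add]; congr 1; ring
    have e5 : P * P' = ((1 + t) / 2) ^ 2 + ((1 - t) / 2) ^ 2
        + (1 + t) / 2 * ((1 - t) / 2) * (Real.exp (2 * a) + Real.exp (-(2 * a))) := by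
      rw [hP, hP']
      have : ((1 + t) / 2 * Real.exp (a * (1 - t)) + (1 - t) / 2 * Real.exp (-(a * (1 + t)))) *
          ((1 + t) / 2 * Real.exp (-(a * (1 - t))) + (1 - t) / 2 * Real.exp (a * (1 + t)))
          = ((1 + t) / 2) ^ 2 * (Real.exp (a * (1 - t)) * Real.exp (-(a * (1 - t))))
          + ((1 - t) / 2) ^ 2 * (Real.exp (-(a * (1 + t))) * Real.exp (a * (1 + t)))
          + (1 + t) / 2 * ((1 - t) / 2) * (Real.exp (a * (1 - t)) * Real.exp (a * (1 + t))
            + Real.exp (-(a * (1 + t))) * Real.exp (-(a * (1 - t)))) := by ring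
      rw [this, e1, e2, e3, e4]
      ring
    have e6 : Real.exp (2 * a) + Real.exp (-(2 * a)) = 4 * Real.cosh a ^ 2 - 2 := by
      rw [Real.cosh_eq]
      have g1 : Real.exp (2 * a) = Real.exp a ^ 2 := by
        rw [← Real.exp_nat_mul]; norm_num
      have g2 : Real.exp (-(2 * a)) = Real.exp (-a) ^ 2 := by
        rw [← Real.exp_nat_mul]; congr 1; push_cast; ring
      have g3 : Real.exp a * Real.exp (-a) = 1 := by rw [← Real.exp_add]; simp
      rw [g1, g2]
      nlinarith
    rw [e5, e6]
    have g4 : 1 ≤ Real.cosh a ^ 2 := by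
      have := Real.one_le_cosh a
      nlinarith
    nlinarith [mul_nonneg (sq_nonneg t) (by linarith : 0 ≤ Real.cosh a ^ 2 - 1)]
  have h3 : Real.cosh a ^ 2 ≤ Real.exp (a ^ 2) := by
    have := Real.cosh_le_exp_half_sq a
    have h4 := pow_le_pow_left₀ (by linarith [Real.one_le_cosh a]) this 2
    refine h4.trans (le_of_eq ?_)
    rw [← Real.exp_nat_mul]
    congr 1
    push_cast
    ring
  calc P ≤ P * P' := le_mul_of_one_le_right h0 h1
    _ ≤ _ := h2.trans h3

/-- the potential of the rounding procedure -/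
noncomputable def pot (g : Fin n → Finset (Fin m) → ℝ) (a : Fin n → ℝ) (lm : ℝ)
    (y : Fin m → ℝ) : ℝ :=
  ∑ i, (Real.exp (lm * (ME (g i) y - a i)) + Real.exp (-(lm * (ME (g i) y - a i))))

lemma pot_step (g : Fin n → Finset (Fin m) → ℝ)
    (hg : ∀ i j S, |g i (insert j S) - g i (S.erase j)| ≤ 2) (a : Fin n → ℝ) (lm : ℝ)
    {y : Fin m → ℝ} (hy : ∀ j, |y j| ≤ 1) (j : Fin m) :
    (1 + y j) / 2 * pot g a lm (update y j 1) + (1 - y j) / 2 * pot g a lm (update y j (-1))
      ≤ Real.exp (lm ^ 2) * pot g a lm y := by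
  unfold pot
  rw [Finset.mul_sum, Finset.mul_sum, Finset.mul_sum, ← Finset.sum_add_distrib]
  refine Finset.sum_le_sum fun i _ => ?_
  have hs := abs_slope_le (hg i) hy j
  set s := slope (g i) j y with hsdef
  set x := ME (g i) y - a i with hx
  have h1 : ME (g i) (update y j 1) - a i = x + (1 - y j) * (s / 2) := by
    rw [ME_update, hx]; ring
  have h2 : ME (g i) (update y j (-1)) - a i = x - (1 + y j) * (s / 2) := by
    rw [ME_update, hx]; ring
  rw [h1, h2]
  have hlm : (lm * (s / 2)) ^ 2 ≤ lm ^ 2 := by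
    rw [mul_pow]
    have : (s / 2) ^ 2 ≤ 1 := by
      have := abs_le.mp hs
      nlinarith
    nlinarith [sq_nonneg lm]
  have hle := Real.exp_le_exp.mpr hlm
  have hlm' : (-(lm * (s / 2))) ^ 2 = (lm * (s / 2)) ^ 2 := by ring
  have t1 := (two_point (a := lm * (s / 2)) (hy j)).trans hle
  have t2 := (two_point (a := -(lm * (s / 2))) (hy j))
  rw [hlm'] at t2
  have t2 := t2.trans hle
  have e1 : Real.exp (lm * (x + (1 - y j) * (s / 2)))
      = Real.exp (lm * x) * Real.exp (lm * (s / 2) * (1 - y j)) := by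
    rw [← Real.exp_add]; congr 1; ring
  have e2 : Real.exp (lm * (x - (1 + y j) * (s / 2)))
      = Real.exp (lm * x) * Real.exp (-(lm * (s / 2) * (1 + y j))) := by
    rw [← Real.exp_add]; congr 1; ring
  have e3 : Real.exp (-(lm * (x + (1 - y j) * (s / 2))))
      = Real.exp (-(lm * x)) * Real.exp (-(lm * (s / 2)) * (1 - y j)) := by
    rw [← Real.exp_add]; congr 1; ring
  have e4 : Real.exp (-(lm * (x - (1 + y j) * (s / 2))))
      = Real.exp (-(lm * x)) * Real.exp (-(-(lm * (s / 2)) * (1 + y j))) := by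
    rw [← Real.exp_add]; congr 1; ring
  rw [e1, e2, e3, e4]
  have f1 := mul_le_mul_of_nonneg_left t1 (Real.exp_pos (lm * x)).le
  have f2 := mul_le_mul_of_nonneg_left t2 (Real.exp_pos (-(lm * x))).le
  linarith

lemma round_aux (g : Fin n → Finset (Fin m) → ℝ)
    (hg : ∀ i j S, |g i (insert j S) - g i (S.erase j)| ≤ 2) (a : Fin n → ℝ) (lm : ℝ) :
    ∀ (k : ℕ) (y : Fin m → ℝ), (∀ j, |y j| ≤ 1) →
      (Finset.univ.filter (fun j => |y j| < 1)).card ≤ k →
      ∃ y' : Fin m → ℝ, (∀ j, y' j = 1 ∨ y' j = -1) ∧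
        pot g a lm y' ≤ Real.exp (k * lm ^ 2) * pot g a lm y := by
  intro k
  induction k with
  | zero =>
    intro y hy hk
    refine ⟨y, fun j => ?_, by simp⟩
    have : ¬ |y j| < 1 := by
      intro h
      have : j ∈ Finset.univ.filter (fun j => |y j| < 1) := by simp [h]
      rw [Finset.card_eq_zero.mp (Nat.le_zero.mp hk)] at this
      simp at this
    have h1 : |y j| = 1 := le_antisymm (hy j) (not_lt.mp this)
    exact (abs_eq zero_le_one).mp h1
  | succ k ih =>
    intro y hy hk
    have hpot0 : ∀ y, 0 ≤ pot g a lm y := fun y =>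
      Finset.sum_nonneg fun i _ => by positivity
    by_cases hf : ∃ j, |y j| < 1
    · obtain ⟨j, hj⟩ := hf
      have hj' := abs_lt.mp hj
      have hstep := pot_step g hg a lm hy j
      have hupd : ∀ c : ℝ, |c| = 1 → (∀ i, |update y j c i| ≤ 1) ∧
          (Finset.univ.filter (fun i => |update y j c i| < 1)).card ≤ k := by
        intro c hc
        refine ⟨fun i => ?_, ?_⟩
        · by_cases h : i = j
          · subst h; simp [hc]
          · simp [h, hy i]
        · have hsub : Finset.univ.filter (fun i => |update y j c i| < 1)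
              ⊆ (Finset.univ.filter (fun i => |y i| < 1)).erase j := by
            intro i hi
            rw [Finset.mem_filter] at hi
            by_cases h : i = j
            · subst h; simp [hc] at hi
            · rw [Finset.mem_erase, Finset.mem_filter]
              refine ⟨h, Finset.mem_univ _, ?_⟩
              simpa [h] using hi.2
          refine (Finset.card_le_card hsub).trans ?_
          rw [Finset.card_erase_of_mem (by simp [hj])]
          omega
      have hchoice : ∃ c : ℝ, |c| = 1 ∧ pot g a lm (update y j c) ≤ Real.exp (lm ^ 2) * pot g a lm y := by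
        by_contra hcon
        push Not at hcon
        have h1 := hcon 1 (by simp)
        have h2 := hcon (-1) (by simp)
        have h3 := mul_lt_mul_of_pos_left h1 (by linarith [hj'.1] : 0 < (1 + y j) / 2)
        have h4 := mul_lt_mul_of_pos_left h2 (by linarith [hj'.2] : 0 < (1 - y j) / 2)
        linarith
      obtain ⟨c, hc, hcp⟩ := hchoice
      obtain ⟨h1, h2⟩ := hupd c hc
      obtain ⟨y', hy', hp⟩ := ih (update y j c) h1 h2
      refine ⟨y', hy', hp.trans ?_⟩
      have h5 := mul_le_mul_of_nonneg_left hcp (Real.exp_pos (k * lm ^ 2)).le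
      refine h5.trans (le_of_eq ?_)
      rw [← mul_assoc, ← Real.exp_add]
      congr 2
      push_cast
      ring
    · push Not at hf
      obtain ⟨y', hy', hp⟩ := ih y hy (by
        have : Finset.univ.filter (fun j => |y j| < 1) = ∅ := by
          ext j; simpa using hf j
        rw [this]; simp)
      refine ⟨y', hy', hp.trans ?_⟩
      apply mul_le_mul_of_nonneg_right _ (hpot0 y)
      apply Real.exp_le_exp.mpr
      push_cast
      nlinarith [sq_nonneg lm]

/-- **Rounding.** -/
theorem round (hn : 0 < n) (g : Fin n → Finset (Fin m) → ℝ)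
    (hg : ∀ i j S, |g i (insert j S) - g i (S.erase j)| ≤ 2) (y : Fin m → ℝ)
    (hy : ∀ j, |y j| ≤ 1) (r : ℕ) (hr : 0 < r)
    (hfrac : (Finset.univ.filter (fun j => |y j| < 1)).card ≤ r) :
    ∃ A : Finset (Fin m), ∀ i, |g i A - ME (g i) y| ≤ 2 * √(r * Real.log (2 * n)) := by
  have hn1 : (1 : ℝ) ≤ n := by exact_mod_cast hn
  have hlog : 0 < Real.log (2 * n) := Real.log_pos (by linarith)
  have hr0 : (0 : ℝ) < r := by exact_mod_cast hr
  set lm : ℝ := √(Real.log (2 * n) / r) with hlm
  have hlm0 : 0 < lm := Real.sqrt_pos.mpr (div_pos hlog hr0)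
  obtain ⟨y', hy', hp⟩ := round_aux g hg (fun i => ME (g i) y) lm r y hy hfrac
  refine ⟨Finset.univ.filter (fun j => y' j = 1), fun i => ?_⟩
  rw [← ME_vertex (g i) y' hy']
  set d := ME (g i) y' - ME (g i) y with hd
  have h0 : pot g (fun i => ME (g i) y) lm y = 2 * n := by
    unfold pot
    simp
    ring
  rw [h0] at hp
  have h1 : Real.exp (lm * |d|) ≤ pot g (fun i => ME (g i) y) lm y' := by
    have h2 : Real.exp (lm * |d|) ≤ Real.exp (lm * d) + Real.exp (-(lm * d)) := by
      rcases abs_cases d with ⟨h, _⟩ | ⟨h, _⟩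
      · rw [h]
        have := Real.exp_pos (-(lm * d))
        linarith
      · rw [h, mul_neg]
        have := Real.exp_pos (lm * d)
        linarith
    refine h2.trans ?_
    exact Finset.single_le_sum (f := fun i => Real.exp (lm * (ME (g i) y' - ME (g i) y))
      + Real.exp (-(lm * (ME (g i) y' - ME (g i) y)))) (fun i _ => by positivity) (Finset.mem_univ i)
  have h3 : Real.exp (lm * |d|) ≤ Real.exp (r * lm ^ 2 + Real.log (2 * n)) := by
    rw [Real.exp_add, Real.exp_log (by linarith)]
    exact h1.trans hp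
  have h4 := Real.exp_le_exp.mp h3
  have h5 : lm ^ 2 = Real.log (2 * n) / r := Real.sq_sqrt (by positivity)
  have h6 : (r : ℝ) * lm ^ 2 = Real.log (2 * n) := by rw [h5]; field_simp
  have h7 : √(r * Real.log (2 * n)) = r * lm := by
    rw [← Real.sqrt_sq (by positivity : 0 ≤ r * lm)]
    congr 1
    rw [mul_pow, h5]
    field_simp
  rw [h7]
  have h8 : lm * |d| ≤ lm * (2 * (r * lm)) := by nlinarith
  exact le_of_mul_le_mul_left h8 hlm0

end Pool.Agent.Lib.MP_506ba8_co.H52
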