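import Mathlib

/-!
# Random thresholds: an area-inequality argument

If few boxes `Q c` carry functions `h c s i` with gradients bounded by `2`, then thresholds `th i`
can be chosen so that at no point of a box `R` of the functions are equal to their thresholds
while all the others are below theirs.
-/

namespace Pool.Agent.Lib.MP_506ba8_co.H52

open Finset Function MeasureTheory

/-! ### Hadamard's inequality -/

lemma hadamard {R : ℕ} (M : Matrix (Fin R) (Fin R) ℝ) {B : ℝ} (hB : 0 ≤ B)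
    (hM : ∀ i j, |M i j| ≤ B) : |M.det| ≤ (B * √R) ^ R := by
  classical
  let E := EuclideanSpace ℝ (Fin R)
  have : Fact (Module.finrank ℝ E = R) := ⟨by simp [E]⟩
  set b : OrthonormalBasis (Fin R) ℝ E := EuclideanSpace.basisFun (Fin R) ℝ
  set o : Orientation ℝ E (Fin R) := b.toBasis.orientation with ho
  set v : Fin R → E := fun i => WithLp.toLp 2 (M i) with hv
  have h1 := o.abs_volumeForm_apply_le v
  rw [o.volumeForm_robust b ho.symm, Module.Basis.det_apply] at h1
  have h2 : b.toBasis.toMatrix v = M.transpose := by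
    ext i j
    simp [Module.Basis.toMatrix_apply, b, v]
    rfl
  rw [h2, Matrix.det_transpose] at h1
  refine h1.trans ?_
  have h3 : ∀ i, ‖v i‖ ≤ B * √R := by
    intro i
    rw [EuclideanSpace.norm_eq]
    have : ∑ j, ‖(v i) j‖ ^ 2 ≤ ∑ j : Fin R, B ^ 2 := by
      refine Finset.sum_le_sum fun j _ => ?_
      have := hM i j
      simp only [hv, Real.norm_eq_abs]
      exact pow_le_pow_left₀ (abs_nonneg _) this 2
    rw [Finset.sum_const, Finset.card_univ, Fintype.card_fin, nsmul_eq_mul] at this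
    calc √(∑ j, ‖(v i) j‖ ^ 2) ≤ √((R : ℝ) * B ^ 2) := Real.sqrt_le_sqrt this
      _ = B * √R := by
        rw [Real.sqrt_mul (by positivity), Real.sqrt_sq hB, mul_comm]
  calc ∏ i : Fin R, ‖v i‖ ≤ ∏ _i : Fin R, (B * √R) :=
        Finset.prod_le_prod (fun _ _ => norm_nonneg _) fun i _ => h3 i
    _ = (B * √R) ^ R := by simp

/-! ### One cell, one set of ties -/

section cell

variable {n R : ℕ}

/-- density weight of a tie -/
noncomputable def Aw (K w : ℝ) : ENNReal := if 0 ≤ w ∧ w ≤ 1 then ENNReal.ofReal (w + 1 / K) else 0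

/-- probability weight of a non-tie -/
noncomputable def bw (w : ℝ) : ENNReal := ENNReal.ofReal (1 - max 0 w)

lemma Aw_add_bw {K : ℝ} (hK : 0 < K) (w : ℝ) : Aw K w + bw w ≤ ENNReal.ofReal (1 + 1 / K) := by
  have hK' : 0 < 1 / K := by positivity
  unfold Aw bw
  split_ifs with h
  · rw [← ENNReal.ofReal_add (by linarith [h.1]) (by rw [max_eq_right h.1]; linarith [h.2])]
    apply ENNReal.ofReal_le_ofReal
    rw [max_eq_right h.1]
    linarith
  · rw [zero_add]
    apply ENNReal.ofReal_le_ofReal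
    have := le_max_left 0 w
    linarith

lemma measurable_Aw (K : ℝ) : Measurable (Aw K) := by
  unfold Aw
  refine Measurable.ite ?_ (by fun_prop) measurable_const
  exact measurableSet_Icc

lemma measurable_bw : Measurable bw := by
  unfold bw
  fun_prop

/-- the splitting equivalence -/
noncomputable def Th (I : Finset (Fin n)) (hI : I.card = R) :
    ((Fin R → ℝ) × ({j // j ∉ I} → ℝ)) ≃ᵐ (Fin n → ℝ) :=
  (MeasurableEquiv.sumPiEquivProdPi (fun _ : Fin R ⊕ {j // j ∉ I} => ℝ)).symm.trans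
    (MeasurableEquiv.piCongrLeft (fun _ => ℝ)
      ((Equiv.sumCongr (I.orderIsoOfFin hI).toEquiv (Equiv.refl _)).trans
        (Equiv.sumCompl (· ∈ I))))

lemma Th_inl (I : Finset (Fin n)) (hI : I.card = R) (y : (Fin R → ℝ) × ({j // j ∉ I} → ℝ))
    (a : Fin R) : Th I hI y (I.orderEmbOfFin hI a) = y.1 a := by
  have := MeasurableEquiv.piCongrLeft_apply_apply (β := fun _ : Fin n => ℝ)
    ((Equiv.sumCongr (I.orderIsoOfFin hI).toEquiv (Equiv.refl {j // j ∉ I})).trans
        (Equiv.sumCompl (· ∈ I)))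
    ((MeasurableEquiv.sumPiEquivProdPi (fun _ : Fin R ⊕ {j // j ∉ I} => ℝ)).symm y) (Sum.inl a)
  exact this

lemma Th_inr (I : Finset (Fin n)) (hI : I.card = R) (y : (Fin R → ℝ) × ({j // j ∉ I} → ℝ))
    (j : {j // j ∉ I}) : Th I hI y j = y.2 j := by
  have := MeasurableEquiv.piCongrLeft_apply_apply (β := fun _ : Fin n => ℝ)
    ((Equiv.sumCongr (I.orderIsoOfFin hI).toEquiv (Equiv.refl {j // j ∉ I})).trans
        (Equiv.sumCompl (· ∈ I)))
    ((MeasurableEquiv.sumPiEquivProdPi (fun _ : Fin R ⊕ {j // j ∉ I} => ℝ)).symm y) (Sum.inr j)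
  exact this

lemma Th_mp (I : Finset (Fin n)) (hI : I.card = R) :
    MeasurePreserving (Th I hI) volume volume :=
  (volume_measurePreserving_sumPiEquivProdPi_symm _).trans
    (volume_measurePreserving_piCongrLeft _ _)

/-- the distribution function of the thresholds -/
noncomputable def qf (t0 z K y : ℝ) : ℝ := (Real.exp ((y - t0) / z) - 1) / K

lemma hasDerivAt_qf (t0 z K y : ℝ) :
    HasDerivAt (qf t0 z K) (Real.exp ((y - t0) / z) * (1 / z) / K) y :=
  ((((hasDerivAt_id y).sub_const t0).div_const z).exp.sub_const 1).div_const K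

lemma cell_bound {Q : Set (Fin R → ℝ)} (hQ : IsCompact Q) (h : Bool → Fin n → (Fin R → ℝ) → ℝ)
    (hdiff : ∀ s i, ∀ x ∈ Q, DifferentiableAt ℝ (h s i) x)
    (hpart : ∀ s i, ∀ x ∈ Q, ∀ l, |fderiv ℝ (h s i) x (Pi.single l 1)| ≤ 2)
    (t0 z K : ℝ) (hz : 0 < z) (hK : 0 < K) (I : Finset (Fin n)) (hI : I.card = R)
    (σ : Fin R → Bool) (W : Fin n → (Fin R → ℝ) → ℝ) (hW : ∀ i, Measurable (W i)) :
    volume {p : Fin n → ℝ | (∀ i, p i ∈ Set.Icc (0 : ℝ) 1) ∧ ∃ x ∈ Q,
        (∀ a, qf t0 z K (h (σ a) (I.orderEmbOfFin hI a) x) = p (I.orderEmbOfFin hI a) ∧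
          W (I.orderEmbOfFin hI a) x = p (I.orderEmbOfFin hI a)) ∧ ∀ j, W j x ≤ p j}
      ≤ ENNReal.ofReal ((2 * √R / z) ^ R) *
        ∫⁻ x in Q, ((∏ i ∈ I, Aw K (W i x)) * ∏ i ∈ Finset.univ \ I, bw (W i x)) := by
  classical
  set k : Fin R → Fin n := fun a => I.orderEmbOfFin hI a with hk
  set w : Fin R → (Fin R → ℝ) → ℝ := fun a x => qf t0 z K (h (σ a) (k a) x) with hw
  have hder : ∀ a, ∀ x ∈ Q, HasFDerivAt (w a)
      ((Real.exp ((h (σ a) (k a) x - t0) / z) * (1 / z) / K) • fderiv ℝ (h (σ a) (k a)) x) x := by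
    intro a x hx
    exact (hasDerivAt_qf t0 z K _).comp_hasFDerivAt x (hdiff (σ a) (k a) x hx).hasFDerivAt
  set wt : Fin R → (Fin R → ℝ) → ℝ := fun a => Q.piecewise (w a) (fun _ => 0) with hwt
  have hwtm : ∀ a, Measurable (wt a) := by
    intro a
    refine ContinuousOn.measurable_piecewise ?_ continuousOn_const hQ.measurableSet
    exact fun x hx => ((hder a x hx).continuousAt).continuousWithinAt
  set E : Set ((Fin R → ℝ) × ({j // j ∉ I} → ℝ)) :=
    (Prod.fst ⁻¹' Q) ∩ ((⋂ a, ({y | wt a y.1 = W (k a) y.1} ∩ {y | W (k a) y.1 ∈ Set.Icc (0:ℝ) 1}))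
      ∩ ⋂ j : {j // j ∉ I}, ({y | max 0 (W j y.1) ≤ y.2 j} ∩ {y | y.2 j ≤ 1})) with hE
  have hEm : MeasurableSet E := by
    refine (measurable_fst hQ.measurableSet).inter ((MeasurableSet.iInter fun a => ?_).inter
      (MeasurableSet.iInter fun j => ?_))
    · refine (measurableSet_eq_fun ((hwtm a).comp measurable_fst)
        ((hW (k a)).comp measurable_fst)).inter ?_
      exact ((hW (k a)).comp measurable_fst) measurableSet_Icc
    · refine (measurableSet_le ?_ ?_).inter (measurableSet_le ?_ measurable_const)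
      · exact measurable_const.max ((hW j).comp measurable_fst)
      · exact (measurable_pi_apply j).comp measurable_snd
      · exact (measurable_pi_apply j).comp measurable_snd
  set Φ : ((Fin R → ℝ) × ({j // j ∉ I} → ℝ)) → ((Fin R → ℝ) × ({j // j ∉ I} → ℝ)) :=
    Prod.map (fun x => fun a => w a x) id with hΦ
  set D : (Fin R → ℝ) → ((Fin R → ℝ) →L[ℝ] (Fin R → ℝ)) := fun x =>
    ContinuousLinearMap.pi (fun a =>
      (Real.exp ((h (σ a) (k a) x - t0) / z) * (1 / z) / K) • fderiv ℝ (h (σ a) (k a)) x) with hD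
  set Φ' : ((Fin R → ℝ) × ({j // j ∉ I} → ℝ)) →
      (((Fin R → ℝ) × ({j // j ∉ I} → ℝ)) →L[ℝ] ((Fin R → ℝ) × ({j // j ∉ I} → ℝ))) :=
    fun y => (D y.1).prodMap (ContinuousLinearMap.id ℝ _) with hΦ'
  have hΦd : ∀ y ∈ E, HasFDerivWithinAt Φ (Φ' y) E y := by
    intro y hy
    have hyQ : y.1 ∈ Q := hy.1
    apply HasFDerivAt.hasFDerivWithinAt
    refine HasFDerivAt.prodMap y ?_ (hasFDerivAt_id _)
    exact hasFDerivAt_pi.mpr fun a => hder a y.1 hyQ
  -- the set is contained in the image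
  have hsub : (Th I hI) ⁻¹' {p : Fin n → ℝ | (∀ i, p i ∈ Set.Icc (0 : ℝ) 1) ∧ ∃ x ∈ Q,
        (∀ a, qf t0 z K (h (σ a) (I.orderEmbOfFin hI a) x) = p (I.orderEmbOfFin hI a) ∧
          W (I.orderEmbOfFin hI a) x = p (I.orderEmbOfFin hI a)) ∧ ∀ j, W j x ≤ p j} ⊆ Φ '' E := by
    rintro ⟨u, v⟩ ⟨hp, x, hx, ha, hj⟩
    refine ⟨(x, v), ⟨hx, ?_, ?_⟩, ?_⟩
    · rw [Set.mem_iInter]
      intro a
      obtain ⟨h1, h2⟩ := ha a
      refine ⟨?_, ?_⟩
      · simp only [hwt, Set.mem_ofPred_eq, Set.piecewise_eq_of_mem _ _ _ hx, hw, hk]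
        rw [h1, h2]
      · simp only [Set.mem_ofPred_eq, hk]
        rw [h2]
        exact hp _
    · rw [Set.mem_iInter]
      intro j
      have h1 := hj j
      have h2 := hp j
      rw [Th_inr] at h1 h2
      refine ⟨?_, h2.2⟩
      exact max_le h2.1 h1
    · simp only [hΦ, Prod.map_apply, id, Prod.mk.injEq, and_true]
      funext a
      obtain ⟨h1, h2⟩ := ha a
      rw [Th_inl] at h1
      exact h1
  rw [← (Th_mp I hI).measure_preimage_equiv]
  refine (measure_mono hsub).trans ?_
  have hHaar : (volume : Measure ((Fin R → ℝ) × ({j // j ∉ I} → ℝ))).IsAddHaarMeasure := by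
    rw [Measure.volume_eq_prod]
    exact Measure.prod.instIsAddHaarMeasure _ _
  refine (addHaar_image_le_lintegral_abs_det_fderiv volume hEm hΦd).trans ?_
  -- determinant bound
  have hdet : ∀ y ∈ E, |(Φ' y).det| ≤ (2 * √R / z) ^ R * ∏ a, (W (k a) y.1 + 1 / K) := by
    intro y hy
    have hyQ : y.1 ∈ Q := hy.1
    have h1 : (Φ' y).det = LinearMap.det ((D y.1 : (Fin R → ℝ) →L[ℝ] (Fin R → ℝ)) :
        (Fin R → ℝ) →ₗ[ℝ] (Fin R → ℝ)) := by
      rw [ContinuousLinearMap.det, hΦ']
      simp only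
      rw [ContinuousLinearMap.coe_prodMap, LinearMap.det_prodMap]
      simp
    have h2 : LinearMap.toMatrix' ((D y.1 : (Fin R → ℝ) →L[ℝ] (Fin R → ℝ)) :
        (Fin R → ℝ) →ₗ[ℝ] (Fin R → ℝ)) = Matrix.of (fun a l =>
          (Real.exp ((h (σ a) (k a) y.1 - t0) / z) * (1 / z) / K) *
            (fderiv ℝ (h (σ a) (k a)) y.1 (Pi.single l 1))) := by
      ext a l
      simp [LinearMap.toMatrix'_apply, hD]
    rw [h1, ← LinearMap.det_toMatrix', h2]
    have h3 := Matrix.det_mul_column
      (fun a => Real.exp ((h (σ a) (k a) y.1 - t0) / z) * (1 / z) / K)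
      (Matrix.of (fun a l => fderiv ℝ (h (σ a) (k a)) y.1 (Pi.single l 1)))
    simp only [Matrix.of_apply] at h3
    rw [h3, abs_mul, Finset.abs_prod]
    have h4 := hadamard (Matrix.of (fun a l => fderiv ℝ (h (σ a) (k a)) y.1 (Pi.single l 1)))
      (B := 2) (by norm_num) (fun a l => by simpa using hpart (σ a) (k a) y.1 hyQ l)
    have h5 : ∏ a, |Real.exp ((h (σ a) (k a) y.1 - t0) / z) * (1 / z) / K|
        = (1 / z) ^ R * ∏ a, (W (k a) y.1 + 1 / K) := by
      have : ∀ a, |Real.exp ((h (σ a) (k a) y.1 - t0) / z) * (1 / z) / K|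
          = (1 / z) * (W (k a) y.1 + 1 / K) := by
        intro a
        have hya := Set.mem_iInter.mp hy.2.1 a
        have h6 : wt a y.1 = W (k a) y.1 := hya.1
        rw [← h6, hwt]
        simp only [Set.piecewise_eq_of_mem _ _ _ hyQ, hw, qf]
        rw [abs_of_pos (by positivity)]
        field_simp
        ring
      rw [Finset.prod_congr rfl (fun a _ => this a), Finset.prod_mul_distrib]
      simp
    rw [h5]
    have h7 : 0 ≤ ∏ a, (W (k a) y.1 + 1 / K) := by
      refine Finset.prod_nonneg fun a _ => ?_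
      have hya := Set.mem_iInter.mp hy.2.1 a
      have := hya.2.1
      have hK' : 0 < 1 / K := by positivity
      have h8 : 0 ≤ W (k a) y.1 := this
      linarith
    calc (1 / z) ^ R * (∏ a, (W (k a) y.1 + 1 / K)) * _
        ≤ (1 / z) ^ R * (∏ a, (W (k a) y.1 + 1 / K)) * (2 * √R) ^ R := by
          apply mul_le_mul_of_nonneg_left h4
          positivity
      _ = (2 * √R / z) ^ R * ∏ a, (W (k a) y.1 + 1 / K) := by
          rw [div_pow (2 * √R) z R, div_pow 1 z R]; ring
  set S : (Fin R → ℝ) → Set ({j // j ∉ I} → ℝ) := fun x =>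
    Set.pi Set.univ (fun j => Set.Icc (max 0 (W j x)) 1) with hS
  have hpt : ∀ y, E.indicator (fun y => ENNReal.ofReal |(Φ' y).det|) y
      ≤ (ENNReal.ofReal ((2 * √R / z) ^ R) * Q.indicator (fun x => ∏ a, Aw K (W (k a) x)) y.1)
        * (S y.1).indicator 1 y.2 := by
    intro y
    by_cases hy : y ∈ E
    · rw [Set.indicator_of_mem hy]
      have hyQ : y.1 ∈ Q := hy.1
      have hyS : y.2 ∈ S y.1 := by
        intro j _
        exact Set.mem_iInter.mp hy.2.2 j
      rw [Set.indicator_of_mem hyQ, Set.indicator_of_mem hyS, Pi.one_apply, mul_one]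
      refine (ENNReal.ofReal_le_ofReal (hdet y hy)).trans ?_
      rw [ENNReal.ofReal_mul (by positivity), ENNReal.ofReal_prod_of_nonneg]
      · refine le_of_eq ?_
        congr 1
        refine Finset.prod_congr rfl fun a _ => ?_
        have hya := Set.mem_iInter.mp hy.2.1 a
        rw [Aw, if_pos]
        exact hya.2
      · intro a _
        have hya := Set.mem_iInter.mp hy.2.1 a
        have hK' : 0 < 1 / K := by positivity
        have h8 : 0 ≤ W (k a) y.1 := hya.2.1
        linarith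
    · rw [Set.indicator_of_notMem hy]
      simp
  rw [← lintegral_indicator hEm]
  refine (lintegral_mono hpt).trans ?_
  rw [Measure.volume_eq_prod]
  refine (lintegral_prod_le _).trans ?_
  have hin : ∀ x, ∫⁻ v, (ENNReal.ofReal ((2 * √R / z) ^ R)
        * Q.indicator (fun x => ∏ a, Aw K (W (k a) x)) x) * (S x).indicator 1 v
      = ENNReal.ofReal ((2 * √R / z) ^ R) * Q.indicator (fun x => (∏ i ∈ I, Aw K (W i x))
          * ∏ i ∈ Finset.univ \ I, bw (W i x)) x := by
    intro x
    have hSm : MeasurableSet (S x) := MeasurableSet.univ_pi fun j => measurableSet_Icc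
    rw [lintegral_const_mul _ (measurable_one.indicator hSm), lintegral_indicator_one hSm]
    rw [mul_assoc]
    congr 1
    by_cases hx : x ∈ Q
    · rw [Set.indicator_of_mem hx, Set.indicator_of_mem hx]
      congr 1
      · have := Finset.prod_map Finset.univ (I.orderEmbOfFin hI).toEmbedding
          (fun i => Aw K (W i x))
        rw [Finset.map_orderEmbOfFin_univ] at this
        exact this.symm
      · rw [hS]
        simp only
        rw [volume_pi_pi]
        rw [Finset.prod_subtype (p := fun j => j ∉ I) (Finset.univ \ I) (by simp)]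
        refine Finset.prod_congr rfl fun j _ => ?_
        rw [Real.volume_Icc, bw]
    · rw [Set.indicator_of_notMem hx, Set.indicator_of_notMem hx, zero_mul]
  simp only [hin]
  rw [lintegral_const_mul', lintegral_indicator hQ.measurableSet]
  exact ENNReal.ofReal_ne_top

end cell

/-! ### All cells -/

lemma qf_mono {t0 z K : ℝ} (hz : 0 < z) (hK : 0 < K) : Monotone (qf t0 z K) := by
  intro x y hxy
  unfold qf
  gcongr

lemma qf_theta {t0 z K p : ℝ} (hz : 0 < z) (hK : 0 < K) (hp : 0 ≤ p) :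
    qf t0 z K (t0 + z * Real.log (1 + K * p)) = p := by
  unfold qf
  have h1 : (t0 + z * Real.log (1 + K * p) - t0) / z = Real.log (1 + K * p) := by
    field_simp
    ring
  rw [h1, Real.exp_log (by positivity)]
  field_simp
  ring

lemma continuousOn_qf_h {R : ℕ} {Q : Set (Fin R → ℝ)} {g : (Fin R → ℝ) → ℝ} (t0 z K : ℝ)
    (hg : ∀ x ∈ Q, DifferentiableAt ℝ g x) : ContinuousOn (fun x => qf t0 z K (g x)) Q := by
  intro x hx
  have h1 : ContinuousAt g x := (hg x hx).continuousAt
  have h2 : ContinuousAt (qf t0 z K) (g x) := (hasDerivAt_qf t0 z K (g x)).continuousAt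
  exact (ContinuousAt.comp (f := g) (g := qf t0 z K) h2 h1).continuousWithinAt

theorem thresh {n R : ℕ} {ι : Type*} [Fintype ι] (Q : ι → Set (Fin R → ℝ))
    (hQ : ∀ c, IsCompact (Q c)) (v : ℝ) (hv : ∀ c, volume (Q c) ≤ ENNReal.ofReal v)
    (h : ι → Bool → Fin n → (Fin R → ℝ) → ℝ)
    (hdiff : ∀ c s i, ∀ x ∈ Q c, DifferentiableAt ℝ (h c s i) x)
    (hpart : ∀ c s i, ∀ x ∈ Q c, ∀ l, |fderiv ℝ (h c s i) x (Pi.single l 1)| ≤ 2)
    (t0 z K : ℝ) (hz : 0 < z) (hK : 0 < K)
    (hsmall : Fintype.card ι * v * (4 * √R / z) ^ R * Real.exp (n / K) < 1) :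
    ∃ th : Fin n → ℝ, (∀ i, t0 ≤ th i ∧ th i ≤ t0 + z * Real.log (1 + K)) ∧
      ∀ c, ∀ x ∈ Q c, ∀ I : Finset (Fin n), I.card = R → (∀ i ∈ I, ∃ s, h c s i x = th i) →
        ∃ j s, th j < h c s j x := by
  classical
  -- reduce to nonnegative `v`
  wlog hv0 : 0 ≤ v generalizing v
  · refine this 0 (fun c => ?_) ?_ le_rfl
    · refine (hv c).trans ?_
      push Not at hv0
      rw [ENNReal.ofReal_of_nonpos hv0.le]
      simp
    · simp
  set W : ι → Fin n → (Fin R → ℝ) → ℝ := fun c i => (Q c).piecewise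
    (fun x => max (qf t0 z K (h c true i x)) (qf t0 z K (h c false i x))) (fun _ => 0) with hWdef
  have hWm : ∀ c i, Measurable (W c i) := by
    intro c i
    refine ContinuousOn.measurable_piecewise ?_ continuousOn_const (hQ c).measurableSet
    exact ContinuousOn.sup (continuousOn_qf_h t0 z K (hdiff c true i))
      (continuousOn_qf_h t0 z K (hdiff c false i))
  have hWle : ∀ c i s, ∀ x ∈ Q c, qf t0 z K (h c s i x) ≤ W c i x := by
    intro c i s x hx
    simp only [hWdef, Set.piecewise_eq_of_mem _ _ _ hx]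
    cases s
    · exact le_max_right _ _
    · exact le_max_left _ _
  set Bc : ι → {I : Finset (Fin n) // I.card = R} → (Fin R → Bool) → Set (Fin n → ℝ) :=
    fun c I σ => {p : Fin n → ℝ | (∀ i, p i ∈ Set.Icc (0 : ℝ) 1) ∧ ∃ x ∈ Q c,
        (∀ a, qf t0 z K (h c (σ a) (I.1.orderEmbOfFin I.2 a) x) = p (I.1.orderEmbOfFin I.2 a) ∧
          W c (I.1.orderEmbOfFin I.2 a) x = p (I.1.orderEmbOfFin I.2 a)) ∧ ∀ j, W c j x ≤ p j}
    with hBc
  have hBcv : ∀ c I σ, volume (Bc c I σ) ≤ ENNReal.ofReal ((2 * √R / z) ^ R) *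
        ∫⁻ x in Q c, ((∏ i ∈ I.1, Aw K (W c i x)) * ∏ i ∈ Finset.univ \ I.1, bw (W c i x)) :=
    fun c I σ => cell_bound (hQ c) (h c) (hdiff c) (hpart c) t0 z K hz hK I.1 I.2 σ (W c) (hWm c)
  set B : Set (Fin n → ℝ) := ⋃ c, ⋃ I, ⋃ σ, Bc c I σ with hB
  have hBv : volume B < 1 := by
    have h1 : volume B ≤ ∑ c, ∑ I, ∑ σ, volume (Bc c I σ) := by
      refine (measure_iUnion_fintype_le _ _).trans (Finset.sum_le_sum fun c _ => ?_)
      refine (measure_iUnion_fintype_le _ _).trans (Finset.sum_le_sum fun I _ => ?_)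
      exact measure_iUnion_fintype_le _ _
    refine h1.trans_lt ?_
    have h2 : ∀ c, ∑ I, ∑ σ, volume (Bc c I σ) ≤ (2 : ENNReal) ^ R *
        (ENNReal.ofReal ((2 * √R / z) ^ R) * (ENNReal.ofReal (1 + 1 / K) ^ n *
          ENNReal.ofReal v)) := by
      intro c
      have h3 : ∑ I, ∑ σ, volume (Bc c I σ) ≤ ∑ I : {I : Finset (Fin n) // I.card = R},
          (2 : ENNReal) ^ R * (ENNReal.ofReal ((2 * √R / z) ^ R) *
          ∫⁻ x in Q c, ((∏ i ∈ I.1, Aw K (W c i x)) * ∏ i ∈ Finset.univ \ I.1, bw (W c i x))) := by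
        refine Finset.sum_le_sum fun I _ => ?_
        refine (Finset.sum_le_sum fun σ _ => hBcv c I σ).trans ?_
        rw [Finset.sum_const, Finset.card_univ, nsmul_eq_mul]
        simp
      refine h3.trans ?_
      rw [← Finset.mul_sum, ← Finset.mul_sum]
      refine mul_le_mul_right (mul_le_mul_right ?_ _) _
      rw [← lintegral_finsetSum]
      · have h4 : ∀ x, ∑ I : {I : Finset (Fin n) // I.card = R},
            ((∏ i ∈ I.1, Aw K (W c i x)) * ∏ i ∈ Finset.univ \ I.1, bw (W c i x))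
            ≤ ENNReal.ofReal (1 + 1 / K) ^ n := by
          intro x
          calc _ ≤ ∑ I ∈ (Finset.univ : Finset (Fin n)).powerset,
                ((∏ i ∈ I, Aw K (W c i x)) * ∏ i ∈ Finset.univ \ I, bw (W c i x)) := by
                rw [← Finset.sum_subtype (Finset.univ.filter (fun I : Finset (Fin n) => I.card = R))
                  (by simp) (fun I => ((∏ i ∈ I, Aw K (W c i x)) * ∏ i ∈ Finset.univ \ I, bw (W c i x)))]
                apply Finset.sum_le_sum_of_subset
                intro I _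
                simp
            _ = ∏ i, (Aw K (W c i x) + bw (W c i x)) := by
                rw [Finset.prod_add]
            _ ≤ ∏ _i : Fin n, ENNReal.ofReal (1 + 1 / K) :=
                Finset.prod_le_prod' fun i _ => Aw_add_bw hK _
            _ = ENNReal.ofReal (1 + 1 / K) ^ n := by simp
        refine (lintegral_mono h4).trans ?_
        rw [setLIntegral_const]
        exact mul_le_mul_right (hv c) _
      · intro I _
        refine Measurable.mul ?_ ?_
        · exact Finset.measurable_prod _ fun i _ => (measurable_Aw K).comp (hWm c i)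
        · exact Finset.measurable_prod _ fun i _ => measurable_bw.comp (hWm c i)
    refine (Finset.sum_le_sum fun c _ => h2 c).trans_lt ?_
    rw [Finset.sum_const, Finset.card_univ, nsmul_eq_mul]
    have h5 : (Fintype.card ι : ENNReal) * ((2 : ENNReal) ^ R *
        (ENNReal.ofReal ((2 * √R / z) ^ R) * (ENNReal.ofReal (1 + 1 / K) ^ n *
          ENNReal.ofReal v))) = ENNReal.ofReal (Fintype.card ι * (2 ^ R * ((2 * √R / z) ^ R *
            ((1 + 1 / K) ^ n * v)))) := by
      rw [ENNReal.ofReal_mul (by positivity), ENNReal.ofReal_natCast]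
      congr 1
      rw [ENNReal.ofReal_mul (by positivity)]
      congr 1
      · rw [ENNReal.ofReal_pow (by norm_num)]; simp
      rw [ENNReal.ofReal_mul (by positivity)]
      congr 1
      rw [ENNReal.ofReal_mul (by positivity), ENNReal.ofReal_pow (by positivity)]
    rw [h5]
    rw [← ENNReal.ofReal_one]
    apply (ENNReal.ofReal_lt_ofReal_iff one_pos).mpr
    refine lt_of_le_of_lt ?_ hsmall
    have h6 : (1 + 1 / K) ^ n ≤ Real.exp (n / K) := by
      have := Real.add_one_le_exp (1 / K)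
      calc (1 + 1 / K) ^ n ≤ (Real.exp (1 / K)) ^ n :=
            pow_le_pow_left₀ (by positivity) (by linarith) n
        _ = Real.exp (n / K) := by rw [← Real.exp_nat_mul]; congr 1; ring
    calc (Fintype.card ι : ℝ) * (2 ^ R * ((2 * √R / z) ^ R * ((1 + 1 / K) ^ n * v)))
        = Fintype.card ι * v * (4 * √R / z) ^ R * (1 + 1 / K) ^ n := by
          have : (4 * √R / z) ^ R = 2 ^ R * (2 * √R / z) ^ R := by
            rw [← mul_pow]; congr 1; ring
          rw [this]; ring
      _ ≤ _ := by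
          apply mul_le_mul_of_nonneg_left h6
          positivity
  -- a good point of the cube
  have hcube : volume (Set.pi Set.univ (fun _ : Fin n => Set.Icc (0 : ℝ) 1)) = 1 := by
    rw [volume_pi_pi]
    simp
  obtain ⟨p, hp, hpB⟩ : ∃ p ∈ Set.pi Set.univ (fun _ : Fin n => Set.Icc (0 : ℝ) 1), p ∉ B := by
    by_contra hcon
    push Not at hcon
    have : volume (Set.pi Set.univ (fun _ : Fin n => Set.Icc (0 : ℝ) 1)) ≤ volume B :=
      measure_mono hcon
    rw [hcube] at this
    exact absurd (this.trans_lt hBv) (lt_irrefl _)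
  have hp' : ∀ i, p i ∈ Set.Icc (0 : ℝ) 1 := fun i => hp i (Set.mem_univ i)
  refine ⟨fun i => t0 + z * Real.log (1 + K * p i), ?_, ?_⟩
  · intro i
    have h0 := (hp' i).1
    have h1 := (hp' i).2
    constructor
    · have : 0 ≤ Real.log (1 + K * p i) := Real.log_nonneg (by nlinarith)
      have := mul_nonneg hz.le this
      linarith
    · have : Real.log (1 + K * p i) ≤ Real.log (1 + K) :=
        Real.log_le_log (by positivity) (by nlinarith)
      have := mul_le_mul_of_nonneg_left this hz.le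
      linarith
  · intro c x hx I hI htie
    by_contra hcon
    push Not at hcon
    apply hpB
    choose! s hs using htie
    rw [hB, Set.mem_iUnion]
    refine ⟨c, ?_⟩
    rw [Set.mem_iUnion]
    refine ⟨⟨I, hI⟩, ?_⟩
    rw [Set.mem_iUnion]
    have hle : ∀ j σ, qf t0 z K (h c σ j x) ≤ p j := by
      intro j σ
      have := qf_mono hz hK (hcon j σ) (t0 := t0)
      rwa [qf_theta hz hK (hp' j).1] at this
    have hWle' : ∀ j, W c j x ≤ p j := by
      intro j
      simp only [hWdef, Set.piecewise_eq_of_mem _ _ _ hx]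
      exact max_le (hle j true) (hle j false)
    refine ⟨fun a => s (I.orderEmbOfFin hI a), hp', x, hx, fun a => ?_, hWle'⟩
    set i := I.orderEmbOfFin hI a with hi
    have hiI : i ∈ I := Finset.orderEmbOfFin_mem I hI a
    have h1 : qf t0 z K (h c (s i) i x) = p i := by
      rw [hs i hiI, qf_theta hz hK (hp' i).1]
    refine ⟨h1, le_antisymm (hWle' i) ?_⟩
    rw [← h1]
    exact hWle c i (s i) x hx

end Pool.Agent.Lib.MP_506ba8_co.H52
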