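import Pool.Agent.Lib.MP_506ba8_co.H52.LsFan
import Pool.Agent.Lib.MP_506ba8_co.H52.Thresh
import Pool.Agent.Lib.MP_506ba8_co.H52.Round
import Pool.Agent.Lib.MP_506ba8_co.H52.Necklace

/-!
# Discrepancy of Lipschitz families: the main bound
-/

namespace Pool.Agent.Lib.MP_506ba8_co.H52

open Finset Function MeasureTheory

variable {r m n : ℕ}

/-! ### Compactness and volume of the cells -/

lemma isClosed_Qc (U : ℝ) (c : Cell r m) : IsClosed (Qc U c) := by
  have h : Qc U c = ({x | 0 ≤ x 0} ∩ {x | x 0 ≤ U}) ∩ ((⋂ l : Fin r,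
      ({x | ((c.2.1 l : Fin m) : ℝ) ≤ x l.succ} ∩ {x | x l.succ ≤ ((c.2.1 l : Fin m) : ℝ) + 1})) ∩
      ⋂ a : Fin r, ⋂ b : Fin r, ⋂ _ : a ≤ b, {x : Fin (r+1) → ℝ | x a.succ ≤ x b.succ}) := by
    ext x
    simp only [Qc, Monotone, Set.mem_inter_iff, Set.mem_iInter]
    rfl
  rw [h]
  refine ((isClosed_le (by fun_prop) (by fun_prop)).inter (isClosed_le (by fun_prop) (by fun_prop))).inter
    ((isClosed_iInter fun l => (isClosed_le (by fun_prop) (by fun_prop)).inter
      (isClosed_le (by fun_prop) (by fun_prop))).inter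
      (isClosed_iInter fun a => isClosed_iInter fun b => isClosed_iInter fun _ =>
        isClosed_le (by fun_prop) (by fun_prop)))

lemma Qc_subset (U : ℝ) (c : Cell r m) : Qc U c ⊆ Set.Icc
    (Fin.cons 0 (fun l => ((c.2.1 l : Fin m) : ℝ)) : Fin (r+1) → ℝ)
    (Fin.cons U (fun l => ((c.2.1 l : Fin m) : ℝ) + 1) : Fin (r+1) → ℝ) := by
  intro x hx
  constructor
  · intro k
    refine Fin.cases ?_ (fun l => ?_) k
    · simpa using hx.1.1
    · simpa using (hx.2.1 l).1
  · intro k
    refine Fin.cases ?_ (fun l => ?_) k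
    · simpa using hx.1.2
    · simpa using (hx.2.1 l).2

lemma isCompact_Qc (U : ℝ) (c : Cell r m) : IsCompact (Qc U c) :=
  isCompact_Icc.of_isClosed_subset (isClosed_Qc U c) (Qc_subset U c)

lemma volume_Qc (U : ℝ) (c : Cell r m) : volume (Qc U c) ≤ ENNReal.ofReal U := by
  refine (measure_mono (Qc_subset U c)).trans ?_
  rw [Real.volume_Icc_pi, Fin.prod_univ_succ]
  simp

/-! ### The functions on the cells -/

/-- signed function minus excess -/
noncomputable def hq (g : Finset (Fin m) → ℝ) (c : Cell r m) (s : Bool) (x : Fin (r+1) → ℝ) : ℝ :=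
  sg s * ME g (Yc c x) - x 0

lemma differentiable_Yc (c : Cell r m) : Differentiable ℝ (fun x => Yc c x) := by
  rw [differentiable_pi]
  intro j
  unfold Yc TT
  refine Differentiable.add (differentiable_const _) (Differentiable.fun_sum fun l _ => ?_)
  refine Differentiable.mul (differentiable_const _) ?_
  show Differentiable ℝ (fun x : Fin (r+1) → ℝ => lin j (c.2.1 l) (x l.succ))
  unfold lin
  split_ifs <;> fun_prop

lemma differentiable_hq (g : Finset (Fin m) → ℝ) (c : Cell r m) (s : Bool) :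
    Differentiable ℝ (hq g c s) := by
  unfold hq
  refine Differentiable.sub (Differentiable.mul (differentiable_const _) ?_) (by fun_prop)
  exact (differentiable_ME g).comp (differentiable_Yc c)

lemma Yc_add_zero (c : Cell r m) (x : Fin (r+1) → ℝ) (t : ℝ) :
    Yc c (x + t • Pi.single 0 1) = Yc c x := by
  funext j
  unfold Yc TT
  simp [Fin.succ_ne_zero]

lemma Yc_add_succ (c : Cell r m) (x : Fin (r+1) → ℝ) (l : Fin r) (t : ℝ) :
    Yc c (x + t • Pi.single l.succ 1) = update (Yc c x) (c.2.1 l)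
      (Yc c x (c.2.1 l) + t * (sg (c.1 l.castSucc) - sg (c.1 l.succ))) := by
  have h1 : ∀ j, Yc c (x + t • Pi.single l.succ 1) j = Yc c x j
      + (if j = c.2.1 l then t * (sg (c.1 l.castSucc) - sg (c.1 l.succ)) else 0) := by
    intro j
    unfold Yc TT
    rw [add_assoc]
    congr 1
    have h2 : ∀ l' : Fin r, (sg (c.1 l'.castSucc) - sg (c.1 l'.succ)) *
        lin j (c.2.1 l') ((x + t • Pi.single l.succ 1 : Fin (r+1) → ℝ) l'.succ)
        = (sg (c.1 l'.castSucc) - sg (c.1 l'.succ)) * lin j (c.2.1 l') (x l'.succ)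
          + (if l' = l then (if j = c.2.1 l then t * (sg (c.1 l.castSucc) - sg (c.1 l.succ)) else 0)
            else 0) := by
      intro l'
      by_cases h : l' = l
      · subst h
        simp only [Pi.add_apply, Pi.smul_apply, Pi.single_eq_same, smul_eq_mul, mul_one, if_true]
        unfold lin
        split_ifs with h3 h4
        · exact absurd h4 h3.ne
        · simp
        · ring
        · simp
      · simp [h, Fin.succ_inj]
    rw [Finset.sum_congr rfl (fun l' _ => h2 l'), Finset.sum_add_distrib]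
    simp
  funext j
  rw [h1]
  by_cases h : j = c.2.1 l
  · subst h; simp
  · simp [h]

lemma hq_partial {g : Finset (Fin m) → ℝ} (hg : ∀ j S, |g (insert j S) - g (S.erase j)| ≤ 2)
    {U : ℝ} {c : Cell r m} {x : Fin (r+1) → ℝ} (hx : x ∈ Qc U c) (s : Bool) (k : Fin (r+1)) :
    |fderiv ℝ (hq g c s) x (Pi.single k 1)| ≤ 2 := by
  have hline := ((differentiable_hq g c s) x).hasFDerivAt.hasLineDerivAt (Pi.single k 1)
  refine Fin.cases (fun hline => ?_) (fun l hline => ?_) k hline
  · have h2 : HasLineDerivAt ℝ (hq g c s) (-1) x (Pi.single 0 1) := by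
      rw [HasLineDerivAt]
      have : (fun t : ℝ => hq g c s (x + t • Pi.single 0 1))
          = fun t => sg s * ME g (Yc c x) - (x 0 + t) := by
        funext t
        rw [hq, Yc_add_zero]
        simp
      rw [this]
      simpa using ((hasDerivAt_id (0 : ℝ)).const_add (x 0)).const_sub (sg s * ME g (Yc c x))
    rw [hline.lineDeriv.symm.trans h2.lineDeriv]
    norm_num
  · set a := sg (c.1 l.castSucc) - sg (c.1 l.succ) with ha
    have h2 : HasLineDerivAt ℝ (hq g c s) (sg s * (a * (slope g (c.2.1 l) (Yc c x) / 2))) x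
        (Pi.single l.succ 1) := by
      rw [HasLineDerivAt]
      have : (fun t : ℝ => hq g c s (x + t • Pi.single l.succ 1))
          = fun t => t * (sg s * (a * (slope g (c.2.1 l) (Yc c x) / 2)))
            + (sg s * ME g (Yc c x) - x 0) := by
        funext t
        rw [hq, Yc_add_succ, ME_update]
        have : (x + t • Pi.single l.succ 1 : Fin (r+1) → ℝ) 0 = x 0 := by
          simp
        rw [this]
        ring
      rw [this]
      simpa using ((hasDerivAt_id (0 : ℝ)).mul_const
        (sg s * (a * (slope g (c.2.1 l) (Yc c x) / 2)))).add_const (sg s * ME g (Yc c x) - x 0)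
    rw [hline.lineDeriv.symm.trans h2.lineDeriv, abs_mul, abs_sg, one_mul, abs_mul, abs_div]
    have h3 := abs_slope_le hg (fun j => abs_Yc_le hx j) (c.2.1 l)
    have h4 : |a| ≤ 2 := by
      rw [ha]
      cases c.1 l.castSucc <;> cases c.1 l.succ <;> simp [sg] <;> norm_num
    have h5 : |(2 : ℝ)| = 2 := by norm_num
    rw [h5]
    have h6 := abs_nonneg a
    nlinarith [abs_nonneg (slope g (c.2.1 l) (Yc c x))]

/-! ### Counting cells -/

lemma card_mono (r m : ℕ) : Fintype.card {c : Fin r → Fin m // Monotone c} ≤ (m + r).choose r := by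
  classical
  have h1 : Fintype.card {c : Fin r → Fin m // Monotone c}
      = (Finset.univ : Finset {c : Fin r → Fin m // Monotone c}).card := rfl
  rw [h1, ← Finset.card_range (m + r), ← Finset.card_powersetCard]
  have hsm : ∀ c : {c : Fin r → Fin m // Monotone c},
      StrictMono (fun l : Fin r => ((c.1 l : Fin m) : ℕ) + (l : ℕ)) := by
    intro c a b hab
    have h1 : c.1 a ≤ c.1 b := c.2 hab.le
    have h2 : (c.1 a : ℕ) ≤ (c.1 b : ℕ) := h1
    have h3 : (a : ℕ) < (b : ℕ) := hab
    simp only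
    omega
  refine Finset.card_le_card_of_injOn
    (fun c => Finset.univ.image (fun l : Fin r => ((c.1 l : Fin m) : ℕ) + (l : ℕ))) ?_ ?_
  · intro c _
    refine Finset.mem_coe.mpr (Finset.mem_powersetCard.mpr ⟨?_, ?_⟩)
    · intro x hx
      rw [Finset.mem_image] at hx
      obtain ⟨l, -, rfl⟩ := hx
      rw [Finset.mem_range]
      have h1 := (c.1 l).isLt
      have h2 := l.isLt
      omega
    · rw [Finset.card_image_of_injective _ (hsm c).injective]
      simp
  · intro c _ c' _ heq
    simp only at heq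
    have hcard : (Finset.univ.image (fun l : Fin r => ((c.1 l : Fin m) : ℕ) + (l : ℕ))).card = r := by
      rw [Finset.card_image_of_injective _ (hsm c).injective]
      simp
    have e1 := Finset.orderEmbOfFin_unique hcard
      (f := fun l : Fin r => ((c.1 l : Fin m) : ℕ) + (l : ℕ))
      (fun l => Finset.mem_image_of_mem _ (Finset.mem_univ l)) (hsm c)
    have e2 := Finset.orderEmbOfFin_unique hcard
      (f := fun l : Fin r => ((c'.1 l : Fin m) : ℕ) + (l : ℕ))
      (fun l => by rw [heq]; exact Finset.mem_image_of_mem _ (Finset.mem_univ l)) (hsm c')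
    have e3 := e1.trans e2.symm
    apply Subtype.ext
    funext l
    have := congrFun e3 l
    apply Fin.ext
    omega

/-- The numerical condition of `thresh`. -/
lemma numeric {m R : ℕ} (hR : 1 ≤ R) (hRm : R ≤ m) (n : ℕ) (hn : 1 ≤ n) :
    (Fintype.card (Cell (R-1) m) : ℝ) * m * (4 * √R / (240 * m / √R)) ^ R
      * Real.exp (n / ((n : ℝ) / R)) < 1 := by
  have hR0 : (0 : ℝ) < R := by exact_mod_cast hR
  have hm0 : (0 : ℝ) < m := by exact_mod_cast (lt_of_lt_of_le hR hRm)
  have hn0 : (0 : ℝ) < n := by exact_mod_cast hn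
  have hsq : √(R : ℝ) ^ 2 = R := Real.sq_sqrt hR0.le
  have hs0 : 0 < √(R : ℝ) := Real.sqrt_pos.mpr hR0
  obtain ⟨r, rfl⟩ : ∃ r, R = r + 1 := ⟨R - 1, by omega⟩
  simp only [Nat.add_sub_cancel]
  -- the count
  have h1 : (Fintype.card (Cell r m) : ℝ) ≤ 2 ^ (r+1) * ((2 * m) ^ r / r.factorial) := by
    have h2 : Fintype.card (Cell r m) = 2 ^ (r+1) * Fintype.card {c : Fin r → Fin m // Monotone c} := by
      simp [Cell]
    rw [h2]
    push_cast
    apply mul_le_mul_of_nonneg_left _ (by positivity)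
    have h3 : (Fintype.card {c : Fin r → Fin m // Monotone c} : ℝ) ≤ ((m + r).choose r : ℕ) := by
      exact_mod_cast card_mono r m
    refine h3.trans ((Nat.choose_le_pow_div r (m + r)).trans ?_)
    apply div_le_div_of_nonneg_right _ (by positivity)
    apply pow_le_pow_left₀ (by positivity)
    have : (r : ℝ) + 1 ≤ m := by exact_mod_cast hRm
    push_cast
    linarith
  -- factorial bound
  have h4 : ((r + 1 : ℕ) : ℝ) ^ (r+1) / (r+1).factorial ≤ Real.exp (r + 1 : ℕ) :=
    Real.pow_div_factorial_le_exp _ (by positivity) _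
  have h5 : (1 : ℝ) / r.factorial ≤ 2 ^ (r+1) * Real.exp 1 ^ (r+1) / ((r + 1 : ℕ) : ℝ) ^ (r+1) := by
    have hf : (0 : ℝ) < r.factorial := by exact_mod_cast r.factorial_pos
    have hf' : ((r+1).factorial : ℝ) = ((r + 1 : ℕ) : ℝ) * r.factorial := by
      rw [Nat.factorial_succ]; push_cast; ring
    rw [div_le_div_iff₀ hf (by positivity), one_mul]
    rw [div_le_iff₀ (by positivity), hf'] at h4
    have h6 : Real.exp (r + 1 : ℕ) = Real.exp 1 ^ (r+1) := by
      rw [← Real.exp_nat_mul]; congr 1; ring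
    rw [h6] at h4
    have h7 : ((r + 1 : ℕ) : ℝ) ≤ 2 ^ (r+1) := by
      exact_mod_cast (Nat.lt_two_pow_self (n := r+1)).le
    calc ((r + 1 : ℕ) : ℝ) ^ (r+1) ≤ Real.exp 1 ^ (r+1) * (((r + 1 : ℕ) : ℝ) * r.factorial) := h4
      _ ≤ Real.exp 1 ^ (r+1) * (2 ^ (r+1) * r.factorial) := by
          apply mul_le_mul_of_nonneg_left _ (by positivity)
          apply mul_le_mul_of_nonneg_right h7 hf.le
      _ = 2 ^ (r+1) * Real.exp 1 ^ (r+1) * r.factorial := by ring
  -- combine
  set R : ℝ := ((r + 1 : ℕ) : ℝ) with hRdef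
  have hexp : Real.exp (n / ((n : ℝ) / R)) = Real.exp 1 ^ (r+1) := by
    rw [← Real.exp_nat_mul]
    congr 1
    rw [← hRdef]
    field_simp
  have hz : 4 * √R / (240 * m / √R) = R / (60 * m) := by
    rw [div_div_eq_mul_div, mul_assoc, ← pow_two, hsq]
    field_simp
    norm_num
  rw [hexp, hz]
  have he : Real.exp 1 ^ 2 < 7.4 := by
    have := Real.exp_one_lt_d9
    have h0 := Real.exp_pos 1
    nlinarith
  calc (Fintype.card (Cell r m) : ℝ) * m * (R / (60 * m)) ^ (r+1) * Real.exp 1 ^ (r+1)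
      ≤ (2 ^ (r+1) * ((2 * m) ^ r / r.factorial)) * m * (R / (60 * m)) ^ (r+1)
        * Real.exp 1 ^ (r+1) := by gcongr
    _ = (2 ^ (r+1) * (2 * m) ^ r * m * (R / (60 * m)) ^ (r+1)
        * Real.exp 1 ^ (r+1)) * (1 / r.factorial) := by ring
    _ ≤ (2 ^ (r+1) * (2 * m) ^ r * m * (R / (60 * m)) ^ (r+1)
        * Real.exp 1 ^ (r+1)) * (2 ^ (r+1) * Real.exp 1 ^ (r+1) / R ^ (r+1)) := by
        apply mul_le_mul_of_nonneg_left h5 (by positivity)
    _ ≤ (8 * Real.exp 1 ^ 2 / 60) ^ (r+1) := by
        have e1 : (2 * (m : ℝ)) ^ r * m ≤ (2 * m) ^ (r+1) := by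
          rw [pow_succ]
          apply mul_le_mul_of_nonneg_left _ (by positivity)
          linarith
        have e2 : (R / (60 * (m : ℝ))) ^ (r+1) = R ^ (r+1) / (60 ^ (r+1) * m ^ (r+1)) := by
          rw [div_pow, mul_pow]
        calc _ = ((2 * (m : ℝ)) ^ r * m) * (2 ^ (r+1) * (R / (60 * m)) ^ (r+1)
              * Real.exp 1 ^ (r+1) * (2 ^ (r+1) * Real.exp 1 ^ (r+1) / R ^ (r+1))) := by ring
          _ ≤ ((2 * (m : ℝ)) ^ (r+1)) * (2 ^ (r+1) * (R / (60 * m)) ^ (r+1)
              * Real.exp 1 ^ (r+1) * (2 ^ (r+1) * Real.exp 1 ^ (r+1) / R ^ (r+1))) := by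
              apply mul_le_mul_of_nonneg_right e1 (by positivity)
          _ = (8 * Real.exp 1 ^ 2 / 60) ^ (r+1) := by
              have e3 : 8 * Real.exp 1 ^ 2 / 60 = (2 * (m : ℝ)) * (2 * (R / (60 * m))
                  * Real.exp 1 * (2 * Real.exp 1 / R)) := by
                field_simp
                norm_num
              rw [e3]
              simp only [mul_pow, div_pow]
    _ < 1 := by
        apply pow_lt_one₀ (by positivity) _ (by omega)
        linarith

/-! ### Lipschitz families -/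

lemma abs_sub_empty {f : Finset (Fin m) → ℝ}
    (hf : ∀ S : Finset (Fin m), ∀ x : Fin m, |f (insert x S) - f (S.erase x)| ≤ 1)
    (S : Finset (Fin m)) : |f S - f ∅| ≤ S.card := by
  induction S using Finset.induction_on with
  | empty => simp
  | insert a S ha ih =>
    have h1 := hf S a
    rw [Finset.erase_eq_of_notMem ha] at h1
    rw [Finset.card_insert_of_notMem ha]
    push_cast
    have h2 : f (insert a S) - f ∅ = (f (insert a S) - f S) + (f S - f ∅) := by ring
    rw [h2]
    refine (abs_add_le _ _).trans ?_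
    linarith

lemma abs_g_le {f : Finset (Fin m) → ℝ}
    (hf : ∀ S : Finset (Fin m), ∀ x : Fin m, |f (insert x S) - f (S.erase x)| ≤ 1)
    (S : Finset (Fin m)) : |f S - f Sᶜ| ≤ m := by
  have h1 := abs_sub_empty hf S
  have h2 := abs_sub_empty hf Sᶜ
  have h3 : f S - f Sᶜ = (f S - f ∅) - (f Sᶜ - f ∅) := by ring
  have h4 : (S.card : ℝ) + (Sᶜ).card = m := by
    have := Finset.card_add_card_compl S
    rw [Fintype.card_fin] at this
    exact_mod_cast this
  rw [h3]
  refine (abs_sub _ _).trans ?_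
  linarith

lemma g_lip {f : Finset (Fin m) → ℝ}
    (hf : ∀ S : Finset (Fin m), ∀ x : Fin m, |f (insert x S) - f (S.erase x)| ≤ 1)
    (j : Fin m) (S : Finset (Fin m)) :
    |(f (insert j S) - f (insert j S)ᶜ) - (f (S.erase j) - f (S.erase j)ᶜ)| ≤ 2 := by
  rw [Finset.compl_insert, Finset.compl_erase]
  have h1 := hf S j
  have h2 := hf Sᶜ j
  have h3 : (f (insert j S) - f (Sᶜ.erase j)) - (f (S.erase j) - f (insert j Sᶜ))
      = (f (insert j S) - f (S.erase j)) + (f (insert j Sᶜ) - f (Sᶜ.erase j)) := by ring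
  rw [h3]
  refine (abs_add_le _ _).trans ?_
  linarith

lemma abs_ME_le {g : Finset (Fin m) → ℝ} {B : ℝ} (hm : 0 < m) (hg : ∀ S, |g S| ≤ B)
    {x : Fin m → ℝ} (hx : ∀ j, |x j| ≤ 1) : |ME g x| ≤ B := by
  set j : Fin m := ⟨0, hm⟩
  rw [ME_split g x j]
  have hxj := abs_le.mp (hx j)
  calc _ ≤ ∑ t ∈ (Finset.univ.erase j).powerset,
        |rw' j x t * ((1 - x j) / 2 * g t + (1 + x j) / 2 * g (insert j t))| :=
        Finset.abs_sum_le_sum_abs _ _
    _ ≤ ∑ t ∈ (Finset.univ.erase j).powerset, rw' j x t * B := by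
        refine Finset.sum_le_sum fun t _ => ?_
        rw [abs_mul, abs_of_nonneg (rw'_nonneg hx j t)]
        apply mul_le_mul_of_nonneg_left _ (rw'_nonneg hx j t)
        have h1 := abs_le.mp (hg t)
        have h2 := abs_le.mp (hg (insert j t))
        rw [abs_le]
        constructor
        · nlinarith
        · nlinarith
    _ = B := by rw [← Finset.sum_mul, sum_rw', one_mul]

/-- **The main bound.** -/
theorem main_bound {n m R : ℕ} (hn : 1 ≤ n) (hR : 1 ≤ R) (hRm : R ≤ m)
    (f : Fin n → Finset (Fin m) → ℝ)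
    (hf : ∀ i : Fin n, ∀ S : Finset (Fin m), ∀ x : Fin m,
      |f i (insert x S) - f i (S.erase x)| ≤ 1) :
    ∃ A : Finset (Fin m), ∀ i : Fin n, |f i A - f i Aᶜ|
      ≤ 240 * m / √R * (1 + Real.log (1 + n / R)) + 2 * √(R * Real.log (2 * n)) := by
  have hm : 0 < m := lt_of_lt_of_le hR hRm
  have hR0 : (0 : ℝ) < R := by exact_mod_cast hR
  have hm0 : (0 : ℝ) < m := by exact_mod_cast hm
  have hn0 : (0 : ℝ) < n := by exact_mod_cast hn
  set g : Fin n → Finset (Fin m) → ℝ := fun i S => f i S - f i Sᶜ with hg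
  have hgl : ∀ i j S, |g i (insert j S) - g i (S.erase j)| ≤ 2 := fun i j S => g_lip (hf i) j S
  have hgm : ∀ i S, |g i S| ≤ m := fun i S => abs_g_le (hf i) S
  have hnum := numeric hR hRm n hn
  obtain ⟨r, rfl⟩ : ∃ r, R = r + 1 := ⟨R - 1, by omega⟩
  rw [Nat.add_sub_cancel] at hnum
  set z : ℝ := 240 * m / √((r + 1 : ℕ) : ℝ) with hz
  have hz0 : 0 < z := by
    have : 0 < √((r + 1 : ℕ) : ℝ) := Real.sqrt_pos.mpr hR0
    positivity
  set K : ℝ := (n : ℝ) / ((r + 1 : ℕ) : ℝ) with hK
  have hK0 : 0 < K := by positivity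
  obtain ⟨th, hth, hbad⟩ := thresh (n := n) (R := r + 1) (ι := Cell r m)
    (Qc m) (isCompact_Qc m) m (volume_Qc m) (fun c s i => hq (g i) c s)
    (fun c s i x _ => differentiable_hq (g i) c s x)
    (fun c s i x hx l => hq_partial (hgl i) hx s l) z z K hz0 hK0 hnum
  have hth0 : ∀ i, 0 < th i := fun i => lt_of_lt_of_le hz0 (hth i).1
  set F : Fin n → (Fin (r+1) → ℝ) → ℝ := fun i w => ME (g i) (nk m w) with hF
  by_cases hgood : ∃ w : Fin (r+1) → ℝ, ‖w‖ = 1 ∧ ∀ i, |F i w| < th i
  · obtain ⟨w, hw, hlt⟩ := hgood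
    obtain ⟨A, hA⟩ := round hn g hgl (nk m w) (fun j => abs_nk_le hw j) (r + 1) (by omega)
      ((frac_card hm hw).trans (by omega))
    refine ⟨A, fun i => ?_⟩
    have h1 := hA i
    have h2 := hlt i
    have h3 := (hth i).2
    have h4 : |g i A| ≤ |g i A - ME (g i) (nk m w)| + |F i w| := by
      have : g i A = (g i A - ME (g i) (nk m w)) + F i w := by simp [hF]
      calc |g i A| = |(g i A - ME (g i) (nk m w)) + F i w| := by rw [← this]
        _ ≤ _ := abs_add_le _ _
    have h5 : |f i A - f i Aᶜ| = |g i A| := rfl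
    rw [h5]
    have h6 : z * (1 + Real.log (1 + K)) = z + z * Real.log (1 + K) := by ring
    rw [h6]
    linarith
  · exfalso
    push Not at hgood
    obtain ⟨w, hw, I, hI, M, hM0, hMI, hMall⟩ := ls_fan (R := r + 1) (by omega) F th
      (fun i => (differentiable_ME (g i)).continuous.comp_continuousOn continuousOn_nk)
      (fun i x hx => by
        have h1 : nk m (-x) = - nk m x := by funext j; exact nk_neg x j
        have h2 : (fun S : Finset (Fin m) => g i Sᶜ) = fun S => - g i S := by
          funext S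
          simp only [hg, compl_compl]
          ring
        have h3 : ME (fun S : Finset (Fin m) => - g i S) (nk m x) = - ME (g i) (nk m x) := by
          simp [ME]
        simp only [hF]
        rw [h1, ME_neg, h2, h3])
      hth0 hgood
    have hF_le : ∀ i, |F i w| ≤ m := fun i =>
      abs_ME_le hm (hgm i) (fun j => abs_nk_le hw j)
    obtain ⟨i1, hi1⟩ : I.Nonempty := Finset.card_pos.mp (by omega)
    have hMm : M ≤ m := by
      have h1 := hMI i1 hi1
      have h2 := hF_le i1
      have h3 := hth0 i1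
      linarith
    obtain ⟨c, x, hx, hx0, hY⟩ := exists_cell hm hw hM0 hMm
    have hYw : Yc c x = nk m w := by funext j; exact (hY j).symm
    obtain ⟨j, s, hjs⟩ := hbad c x hx I hI (by
      intro i hi
      have h1 := hMI i hi
      rcases abs_cases (F i w) with ⟨h, _⟩ | ⟨h, _⟩
      · refine ⟨true, ?_⟩
        simp only [hq, hYw, hx0, sg, if_true, one_mul]
        rw [h] at h1
        simp only [hF] at h1
        linarith
      · refine ⟨false, ?_⟩
        simp only [hq, hYw, hx0, sg]
        rw [h] at h1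
        simp only [hF] at h1
        simp only [Bool.false_eq_true, if_false]
        linarith)
    have h1 := hMall j
    simp only [hq, hYw, hx0] at hjs
    have h2 : sg s * F j w ≤ |F j w| := by
      have := le_abs_self (sg s * F j w)
      rwa [abs_mul, abs_sg, one_mul] at this
    simp only [hF] at h1 h2
    linarith

end Pool.Agent.Lib.MP_506ba8_co.H52
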